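import Pool.Agent.Lib.helper72.PTMod

/-!
The relation `PT e F` (the string `F a` is computable from the string `e a` in polynomial time),
its link with modules, and polynomial bounds `Bd`.
-/

set_option autoImplicit false

namespace Pool.Agent.PolyT

open Turing Turing.TM2 Function

/-- `PT e F`: one Mathlib stack machine maps `e a` to `F a` for every `a`, in time polynomial
in the length of `e a`. -/
def PT {α : Type} (e F : α → List Bool) : Prop :=
  Nonempty (TM2ComputableInPolyTime e id F)

/-- `Bd e t`: `t a` is bounded by a polynomial in the length of `e a`. -/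
def Bd {α : Type} (e : α → List Bool) (t : α → ℕ) : Prop :=
  ∃ p : Polynomial ℕ, ∀ a, t a ≤ p.eval (e a).length

theorem eval_mono (p : Polynomial ℕ) {m n : ℕ} (h : m ≤ n) : p.eval m ≤ p.eval n := by
  induction p using Polynomial.induction_on' with
  | add p q hp hq => simp only [Polynomial.eval_add]; omega
  | monomial k c =>
    simp only [Polynomial.eval_monomial]
    exact Nat.mul_le_mul_left _ (Nat.pow_le_pow_left h k)

namespace Bd

variable {α β : Type} {e : α → List Bool} {t u : α → ℕ}

theorem const (c : ℕ) : Bd e (fun _ => c) := ⟨Polynomial.C c, fun _ => by simp⟩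

theorem len : Bd e (fun a => (e a).length) := ⟨Polynomial.X, fun _ => by simp⟩

theorem add (h : Bd e t) (h' : Bd e u) : Bd e (fun a => t a + u a) := by
  obtain ⟨p, hp⟩ := h
  obtain ⟨q, hq⟩ := h'
  exact ⟨p + q, fun a => by rw [Polynomial.eval_add]; exact Nat.add_le_add (hp a) (hq a)⟩

theorem mul (h : Bd e t) (h' : Bd e u) : Bd e (fun a => t a * u a) := by
  obtain ⟨p, hp⟩ := h
  obtain ⟨q, hq⟩ := h'
  exact ⟨p * q, fun a => by rw [Polynomial.eval_mul]; exact Nat.mul_le_mul (hp a) (hq a)⟩

theorem pow (h : Bd e t) (k : ℕ) : Bd e (fun a => t a ^ k) := by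
  obtain ⟨p, hp⟩ := h
  exact ⟨p ^ k, fun a => by rw [Polynomial.eval_pow]; exact Nat.pow_le_pow_left (hp a) k⟩

theorem of_le (h : Bd e u) (hle : ∀ a, t a ≤ u a) : Bd e t := by
  obtain ⟨p, hp⟩ := h
  exact ⟨p, fun a => (hle a).trans (hp a)⟩

theorem eval (h : Bd e t) (p : Polynomial ℕ) : Bd e (fun a => p.eval (t a)) := by
  obtain ⟨q, hq⟩ := h
  exact ⟨p.comp q, fun a => by rw [Polynomial.eval_comp]; exact eval_mono p (hq a)⟩

theorem trans {F : α → List Bool} (h : Bd e (fun a => (F a).length)) (h' : Bd F t) : Bd e t := by
  obtain ⟨p, hp⟩ := h'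
  exact (h.eval p).of_le hp

theorem reindex (h : Bd e t) (φ : β → α) : Bd (fun b => e (φ b)) (fun b => t (φ b)) := by
  obtain ⟨p, hp⟩ := h
  exact ⟨p, fun b => hp _⟩

end Bd

/-- Contents with `x` on stack `k` and nothing elsewhere. -/
def only {K : Type} [DecidableEq K] (k : K) (x : List Bool) : K → List Bool :=
  fun j => if j = k then x else []

section Export

variable {K : Type} [DecidableEq K] [Fintype K]

/-- The Mathlib machine of a module. -/
def Mod.toTM (M : Mod K) (i o : K) : FinTM2 where
  K := K ⊕ M.J
  k₀ := Sum.inl i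
  k₁ := Sum.inl o
  Γ := Alph K M.Γ
  Λ := M.code.Λ
  main := M.code.entry
  ΛFin := M.code.fin
  σ := M.σ
  initialState := M.start
  Γk₀Fin := inferInstanceAs (Fintype Bool)
  m := M.code.code

theorem Mod.initList_toTM (M : Mod K) (i o : K) (x : List Bool) :
    initList (M.toTM i o) x = ⟨some M.code.entry, M.start, ext M.Γ (only i x)⟩ := by
  unfold initList
  congr 1
  funext k
  by_cases h : k = Sum.inl i
  · subst h
    refine (dif_pos rfl).trans ?_
    show x = only i x i
    simp [only]
  · have h' : ¬ k = (M.toTM i o).k₀ := h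
    refine (dif_neg h').trans ?_
    cases k with
    | inl k =>
      have hk : k ≠ i := fun e => h (congrArg Sum.inl e)
      show [] = only i x k
      simp [only, hk]
    | inr k => rfl

theorem Mod.haltList_toTM (M : Mod K) (i o : K) (x : List Bool) :
    haltList (M.toTM i o) x = ⟨none, M.start, ext M.Γ (only o x)⟩ := by
  unfold haltList
  congr 1
  funext k
  by_cases h : k = Sum.inl o
  · subst h
    refine (dif_pos rfl).trans ?_
    show x = only o x o
    simp [only]
  · have h' : ¬ k = (M.toTM i o).k₁ := h
    refine (dif_neg h').trans ?_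
    cases k with
    | inl k =>
      have hk : k ≠ o := fun e => h (congrArg Sum.inl e)
      show [] = only o x k
      simp [only, hk]
    | inr k => rfl

theorem PT.of_mod {α : Type} {e F : α → List Bool} (M : Mod K) (i o : K) {t : α → ℕ}
    (ht : Bd e t) (h : ∀ a, M.Run (t a) (only i (e a)) (only o (F a))) : PT e F := by
  obtain ⟨p, hp⟩ := ht
  refine ⟨⟨⟨M.toTM i o, Equiv.refl Bool, Equiv.refl Bool⟩, p, fun a => ?_⟩⟩
  refine ⟨⟨Classical.choose (h a), ?_⟩, (Classical.choose_spec (h a)).1.trans (hp a)⟩
  have h1 := steps_iff.1 (Classical.choose_spec (h a)).2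
  have e1 : List.map (Equiv.refl Bool).invFun (e a) = e a := List.map_id _
  have e2 : List.map (Equiv.refl Bool).invFun (id (F a)) = F a := List.map_id _
  have e3 := (congrArg (initList (M.toTM i o)) e1).trans (Mod.initList_toTM M i o (e a))
  have e4 := (congrArg (haltList (M.toTM i o)) e2).trans (Mod.haltList_toTM M i o (F a))
  exact (congrArg (fun c => (flip bind (step M.code.code))^[Classical.choose (h a)] (some c))
    e3).trans (h1.trans (congrArg some e4.symm))

end Export

section Import

variable {K : Type} [DecidableEq K] {Γ : K → Type} {τ : Type}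

/-- Move stack `a` onto stack `b`, through a bit register. -/
def moveCode (a b : K) (f : Γ a → Bool) (g : Bool → Γ b) : Code Γ (τ × Option Bool) :=
  Code.single (.pop a (fun w o => (w.1, o.map f))
    (.branch (fun w => w.2.isSome)
      (.push b (fun w => g (w.2.getD false)) (.load (fun w => (w.1, none)) (.goto fun _ => ())))
      .halt))

theorem moveCode_run_aux (a b : K) (hab : a ≠ b) (f : Γ a → Bool) (g : Bool → Γ b) (v : τ)
    (x : List (Γ a)) (S : ∀ k, List (Γ k)) :
    (moveCode a b f g).Run (x.length + 1) (v, none) (update S a x) (v, none)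
      (update (update S a []) b ((x.map (fun y => g (f y))).reverse ++ S b)) := by
  induction x generalizing S with
  | nil =>
    refine Code.Run.single_done ?_
    simp only [stepAux, update_self, List.head?_nil, Option.map_none, Option.isSome_none,
      cond_false, List.tail_nil, update_idem, List.map_nil, List.reverse_nil, List.nil_append]
    rw [← update_of_ne hab.symm ([] : List (Γ a)) S, update_eq_self]
  | cons y x ih =>
    have h1 := ih (update S b (g (f y) :: S b))
    rw [update_self, update_comm hab.symm, update_comm hab.symm, update_idem] at h1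
    have e : (List.map (fun y => g (f y)) (y :: x)).reverse ++ S b =
        (List.map (fun y => g (f y)) x).reverse ++ g (f y) :: S b := by simp
    rw [e]
    refine Code.Run.single_step ?_ h1
    simp only [stepAux, update_self, List.head?_cons, Option.map_some, Option.isSome_some,
      cond_true, List.tail_cons, update_idem, Option.getD_some]
    rw [update_of_ne hab.symm]

theorem moveCode_run (a b : K) (hab : a ≠ b) (f : Γ a → Bool) (g : Bool → Γ b) (v : τ)
    (S S' : ∀ k, List (Γ k)) (ha : S' a = [])
    (hb : S' b = ((S a).map (fun y => g (f y))).reverse ++ S b)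
    (ho : ∀ k, k ≠ a → k ≠ b → S' k = S k) :
    (moveCode a b f g).Run ((S a).length + 1) (v, none) S (v, none) S' := by
  have h := moveCode_run_aux a b hab f g v (S a) S
  rw [update_eq_self] at h
  have : S' = update (update S a []) b (((S a).map (fun y => g (f y))).reverse ++ S b) := by
    funext k
    by_cases h1 : k = b
    · subst h1; rw [update_self, hb]
    · rw [update_of_ne h1]
      by_cases h2 : k = a
      · subst h2; rw [update_self, ha]
      · rw [update_of_ne h2, ho k h2 h1]
  rw [this]
  exact h

end Import

section Wrap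

variable (tm : FinTM2)

/-- Private alphabets of the wrapper: one bit stack and the stacks of `tm`. -/
def wrapΓ : Option tm.K → Type
  | none => Bool
  | some k => tm.Γ k

/-- Embedding of `tm` in its wrapper. -/
def wrapEmb : Emb tm.Γ tm.σ (Alph Bool (wrapΓ tm)) (tm.σ × Option Bool) where
  e := fun k => Sum.inr (some k)
  inj := fun _ _ h => by simpa using h
  up := fun _ => id
  down := fun _ => id
  down_up := fun _ _ => rfl
  get := Prod.fst
  set := fun w v => (v, w.2)
  get_set := fun _ _ => rfl
  set_set := fun _ _ _ => rfl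

/-- The code of `tm`. -/
def tmCode : Code tm.Γ tm.σ := ⟨tm.Λ, tm.ΛFin, tm.main, tm.m⟩

/-- A Mathlib machine as a module from stack `false` to stack `true`. -/
def wrap (ei : tm.Γ tm.k₀ ≃ Bool) (eo : tm.Γ tm.k₁ ≃ Bool) : Mod Bool where
  J := Option tm.K
  decJ := inferInstance
  finJ := @instFintypeOption _ tm.kFin
  Γ := wrapΓ tm
  σ := tm.σ × Option Bool
  finσ := @instFintypeProd _ _ tm.σFin inferInstance
  start := (tm.initialState, none)
  code :=
    ((((moveCode (Γ := Alph Bool (wrapΓ tm)) (Sum.inl false) (Sum.inr none) id id).seq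
      (moveCode (Γ := Alph Bool (wrapΓ tm)) (Sum.inr none) (Sum.inr (some tm.k₀)) id ei.symm)).seq
      ((tmCode tm).lift (wrapEmb tm))).seq
      (moveCode (Γ := Alph Bool (wrapΓ tm)) (Sum.inr (some tm.k₁)) (Sum.inr none) eo id)).seq
      (moveCode (Γ := Alph Bool (wrapΓ tm)) (Sum.inr none) (Sum.inl true) id id)

/-- Stack contents of the wrapper. -/
def wst (i o t : List Bool) (S : ∀ k, List (tm.Γ k)) :
    ∀ x : Bool ⊕ Option tm.K, List (Alph Bool (wrapΓ tm) x)
  | Sum.inl false => i
  | Sum.inl true => o
  | Sum.inr none => t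
  | Sum.inr (some k) => S k

theorem wrap_run (ei : tm.Γ tm.k₀ ≃ Bool) (eo : tm.Γ tm.k₁ ≃ Bool) (x y : List Bool) (n : ℕ)
    (h : Steps tm.m n (initList tm (x.map ei.symm)) (haltList tm (y.map eo.symm))) :
    (wrap tm ei eo).Run (2 * x.length + 2 * y.length + n + 4) (only false x) (only true y) := by
  have i0 : (initList tm (x.map ei.symm)).stk tm.k₀ = x.map ei.symm := by
    simp [initList]
  have i1 : ∀ k, k ≠ tm.k₀ → (initList tm (x.map ei.symm)).stk k = [] := by
    intro k hk; simp [initList, hk]
  have o0 : (haltList tm (y.map eo.symm)).stk tm.k₁ = y.map eo.symm := by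
    simp [haltList]
  have o1 : ∀ k, k ≠ tm.k₁ → (haltList tm (y.map eo.symm)).stk k = [] := by
    intro k hk; simp [haltList, hk]
  have e0 : ext (wrapΓ tm) (only false x) = wst tm x [] [] (fun _ => []) := by
    funext k
    rcases k with (_ | _) | (_ | _) <;> rfl
  have e5 : ext (wrapΓ tm) (only true y) = wst tm [] y [] (fun _ => []) := by
    funext k
    rcases k with (_ | _) | (_ | _) <;> rfl
  have h1 := moveCode_run (Γ := Alph Bool (wrapΓ tm)) (Sum.inl false) (Sum.inr none) (by simp)
    id id tm.initialState (wst tm x [] [] (fun _ => [])) (wst tm [] [] x.reverse (fun _ => []))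
    rfl (by
      show x.reverse = (x.map (fun y => y)).reverse ++ ([] : List Bool)
      simp)
    (fun k h1 h2 => by
      rcases k with (_ | _) | (_ | _)
      · exact absurd rfl h1
      · rfl
      · exact absurd rfl h2
      · rfl)
  have h2 := moveCode_run (Γ := Alph Bool (wrapΓ tm)) (Sum.inr none) (Sum.inr (some tm.k₀))
    (by simp) id ei.symm tm.initialState (wst tm [] [] x.reverse (fun _ => []))
    (wst tm [] [] [] (initList tm (x.map ei.symm)).stk) rfl
    (by
      show (initList tm (x.map ei.symm)).stk tm.k₀ =
        (x.reverse.map (fun y => ei.symm y)).reverse ++ ([] : List (tm.Γ tm.k₀))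
      rw [i0]; simp)
    (fun k h1 h2 => by
      rcases k with (_ | _) | (_ | k)
      · rfl
      · rfl
      · exact absurd rfl h1
      · exact i1 k (fun e => h2 (by rw [e])))
  have h3' : (tmCode tm).Run n tm.initialState (initList tm (x.map ei.symm)).stk
      tm.initialState (haltList tm (y.map eo.symm)).stk := ⟨n, le_rfl, h⟩
  have h3 := Code.Run.lift (wrapEmb tm) h3' (tm.initialState, none)
    (R := wst tm [] [] [] (initList tm (x.map ei.symm)).stk)
    (R' := wst tm [] [] [] (haltList tm (y.map eo.symm)).stk)
    (fun k => (List.map_id _).symm) (fun k => (List.map_id _).symm)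
    (fun k hk => by
      rcases k with (_ | _) | (_ | k)
      · rfl
      · rfl
      · rfl
      · exact absurd rfl (hk k))
  have h4 := moveCode_run (Γ := Alph Bool (wrapΓ tm)) (Sum.inr (some tm.k₁)) (Sum.inr none)
    (by simp) eo id tm.initialState (wst tm [] [] [] (haltList tm (y.map eo.symm)).stk)
    (wst tm [] [] y.reverse (fun _ => [])) rfl
    (by
      show y.reverse =
        (((haltList tm (y.map eo.symm)).stk tm.k₁).map (fun y => eo y)).reverse ++ ([] : List Bool)
      rw [o0]; simp [Function.comp_def])
    (fun k h1 h2 => by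
      rcases k with (_ | _) | (_ | k)
      · rfl
      · rfl
      · exact absurd rfl h2
      · exact (o1 k (fun e => h1 (by rw [e]))).symm)
  have h5 := moveCode_run (Γ := Alph Bool (wrapΓ tm)) (Sum.inr none) (Sum.inl true) (by simp)
    id id tm.initialState (wst tm [] [] y.reverse (fun _ => [])) (wst tm [] y [] (fun _ => []))
    rfl (by
      show y = (y.reverse.map (fun y => y)).reverse ++ ([] : List Bool)
      simp)
    (fun k h1 h2 => by
      rcases k with (_ | _) | (_ | _)
      · rfl
      · exact absurd rfl h2
      · exact absurd rfl h1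
      · rfl)
  have hall := (((h1.seq h2).seq h3).seq h4).seq h5
  have l1 : (wst tm x [] [] (fun _ => []) (Sum.inl false)).length = x.length := rfl
  have l2 : (wst tm [] [] x.reverse (fun _ => []) (Sum.inr none)).length = x.length :=
    List.length_reverse
  have l4 : (wst tm [] [] [] (haltList tm (y.map eo.symm)).stk
      (Sum.inr (some tm.k₁))).length = y.length := by
    show ((haltList tm (y.map eo.symm)).stk tm.k₁).length = _
    rw [o0, List.length_map]
  have l5 : (wst tm [] [] y.reverse (fun _ => []) (Sum.inr none)).length = y.length :=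
    List.length_reverse
  rw [l1, l2, l4, l5] at hall
  show (wrap tm ei eo).code.Run _ _ (ext (wrapΓ tm) (only false x)) _
    (ext (wrapΓ tm) (only true y))
  rw [e0, e5]
  exact hall.mono (by omega)

end Wrap

theorem PT.steps {α : Type} {e F : α → List Bool} (T : TM2ComputableInPolyTime e id F) (a : α) :
    ∃ n ≤ T.time.eval (e a).length, Steps T.tm.m n
      (initList T.tm ((e a).map T.inputAlphabet.symm))
      (haltList T.tm ((F a).map T.outputAlphabet.symm)) :=
  ⟨(T.outputsFun a).steps, (T.outputsFun a).steps_le_m,
    steps_iff.2 (T.outputsFun a).evals_in_steps⟩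

/-- The output of a polynomial-time machine has polynomial length. -/
theorem PT.bd {α : Type} {e F : α → List Bool} (h : PT e F) : Bd e (fun a => (F a).length) := by
  obtain ⟨T⟩ := h
  have := T.tm.ΛFin
  obtain ⟨C, hC⟩ : ∃ C, ∀ l, pushes (T.tm.m l) ≤ C :=
    ⟨Finset.univ.sup (fun l => pushes (T.tm.m l)),
      fun l => Finset.le_sup (f := fun l => pushes (T.tm.m l)) (Finset.mem_univ l)⟩
  refine (Bd.len.add ((Bd.const C).mul (Bd.len.eval T.time))).of_le (fun a => ?_)
  obtain ⟨n, hn, hs⟩ := PT.steps T a
  have h1 := hs.length_le hC T.tm.k₁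
  have h2 : ((haltList T.tm ((F a).map T.outputAlphabet.symm)).stk T.tm.k₁).length
      = (F a).length := by simp [haltList]
  have h3 : ((initList T.tm ((e a).map T.inputAlphabet.symm)).stk T.tm.k₁).length
      ≤ (e a).length := by
    have : ∀ k, ((initList T.tm ((e a).map T.inputAlphabet.symm)).stk k).length
        ≤ (e a).length := by
      intro k
      by_cases hk : k = T.tm.k₀
      · subst hk; simp [initList]
      · simp [initList, hk]
    exact this _
  have h4 := Nat.mul_le_mul_left C hn
  omega

/-- A polynomial-time machine as a module from stack `false` to stack `true`. -/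
theorem PT.to_mod {α : Type} {e F : α → List Bool} (h : PT e F) :
    ∃ (M : Mod Bool) (p : Polynomial ℕ),
      ∀ a, M.Run (p.eval (e a).length) (only false (e a)) (only true (F a)) := by
  have hb := h.bd
  obtain ⟨T⟩ := h
  obtain ⟨p, hp⟩ := (((((Bd.const 2).mul Bd.len).add ((Bd.const 2).mul hb)).add
    (Bd.len.eval T.time)).add (Bd.const 4))
  refine ⟨wrap T.tm T.inputAlphabet T.outputAlphabet, p, fun a => ?_⟩
  obtain ⟨n, hn, hs⟩ := PT.steps T a
  refine (wrap_run T.tm _ _ _ _ n hs).mono ?_
  have := hp a
  simp only at this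
  omega

end Pool.Agent.PolyT
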