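import Pool.Agent.Lib.helper72.PTBasic

/-!
Closure properties of `PT`: composition, concatenation, finite-state transducers, iteration.
-/

set_option autoImplicit false

namespace Pool.Agent.PolyT

open Turing Turing.TM2 Function

section Pieces

variable {K : Type} [DecidableEq K]

omit [DecidableEq K] in
theorem cond_injective {i o : K} (h : i ≠ o) : Injective (fun b : Bool => cond b o i) := by
  intro a b hab
  cases a <;> cases b <;> simp_all [eq_comm]

/-- A two-stack module placed on the stacks `i` (input) and `o` (output). -/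
def Mod.box (M : Mod Bool) (i o : K) (h : i ≠ o) : Mod K :=
  M.rename (fun b => cond b o i) (cond_injective h)

theorem Mod.Run.box {M : Mod Bool} {t : ℕ} {x y : List Bool}
    (hM : M.Run t (only false x) (only true y)) (i o : K) (h : i ≠ o) (R R' : K → List Bool)
    (h1 : R i = x) (h2 : R o = []) (h3 : R' i = []) (h4 : R' o = y)
    (h5 : ∀ j, j ≠ i → j ≠ o → R' j = R j) : (M.box i o h).Run t R R' := by
  refine hM.rename _ _ (fun k => ?_) (fun k => ?_) (fun j hj => ?_)
  · cases k <;> simp [only, h1, h2]
  · cases k <;> simp [only, h3, h4]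
  · exact h5 j (hj false).symm (hj true).symm

theorem outOn_append (o o' : List (K × Bool)) (k : K) :
    outOn (o ++ o') k = outOn o k ++ outOn o' k := by simp [outOn]

theorem outOn_map (b : K) (l : List Bool) (k : K) :
    outOn (l.map (fun y => (b, y))) k = if b = k then l else [] := by
  induction l with
  | nil => simp [outOn]
  | cons y l ih =>
    by_cases h : b = k
    · simp only [outOn, h, if_true] at ih ⊢
      simp [ih]
    · simp only [outOn, h, if_false] at ih ⊢
      rw [List.map_cons, List.filter_cons_of_neg (by simpa using h), ih]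

theorem tOut_map {τ ω ω' : Type} (g : ω → ω') (δ : τ → Bool → τ × List ω) (fin : τ → List ω)
    (s : τ) (x : List Bool) :
    tOut (fun s y => ((δ s y).1, (δ s y).2.map g)) (fun s => (fin s).map g) s x =
      (tOut δ fin s x).map g := by
  induction x generalizing s with
  | nil => rfl
  | cons y x ih => simp [tOut, ih]

/-- A transducer from stack `a` to stack `b`. -/
noncomputable def Mod.tr1 {τ : Type} [Fintype τ] (a b : K) (δ : τ → Bool → τ × List Bool)
    (fin : τ → List Bool) (s₀ : τ) : Mod K :=
  Mod.trans a (fun s y => ((δ s y).1, (δ s y).2.map (fun y => (b, y))))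
    (fun s => (fin s).map (fun y => (b, y))) s₀

theorem Mod.Run.tr1 {τ : Type} [Fintype τ] (a b : K) (hab : a ≠ b)
    (δ : τ → Bool → τ × List Bool) (fin : τ → List Bool) (s₀ : τ) (S S' : K → List Bool)
    (h1 : S' a = []) (h2 : S' b = (tOut δ fin s₀ (S a)).reverse ++ S b)
    (h3 : ∀ j, j ≠ a → j ≠ b → S' j = S j) :
    (Mod.tr1 a b δ fin s₀).Run ((S a).length + 1) S S' := by
  refine Mod.Run.trans a _ _ s₀ (fun s y p hp => ?_) S S' (fun k => ?_)
  · simp only [List.mem_map] at hp
    obtain ⟨z, -, rfl⟩ := hp
    exact hab.symm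
  · rw [tOut_map, outOn_map]
    by_cases hb : b = k
    · subst hb; rw [if_pos rfl, update_of_ne hab.symm, h2]
    · rw [if_neg hb]
      by_cases ha : k = a
      · subst ha; simp [h1]
      · rw [update_of_ne ha, h3 k ha (Ne.symm hb)]; simp

theorem tOut_id (x : List Bool) :
    tOut (fun (_ : Unit) y => ((), [y])) (fun _ => []) () x = x := by
  induction x with
  | nil => rfl
  | cons y x ih => simp [tOut, ih]

/-- Move stack `a` onto stack `b` (reversing it). -/
noncomputable def Mod.mv (a b : K) : Mod K :=
  Mod.tr1 a b (fun (_ : Unit) y => ((), [y])) (fun _ => []) ()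

theorem Mod.Run.mv (a b : K) (hab : a ≠ b) (S S' : K → List Bool)
    (h1 : S' a = []) (h2 : S' b = (S a).reverse ++ S b)
    (h3 : ∀ j, j ≠ a → j ≠ b → S' j = S j) : (Mod.mv a b).Run ((S a).length + 1) S S' :=
  Mod.Run.tr1 a b hab _ _ _ S S' h1 (by rw [tOut_id, h2]) h3

/-- Move stack `a` onto both `b` and `c` (reversing it). -/
noncomputable def Mod.dup (a b c : K) : Mod K :=
  Mod.trans a (fun (_ : Unit) y => ((), [(b, y), (c, y)])) (fun _ => []) ()

theorem Mod.Run.dup (a b c : K) (hab : a ≠ b) (hac : a ≠ c) (hbc : b ≠ c) (S S' : K → List Bool)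
    (h1 : S' a = []) (h2 : S' b = (S a).reverse ++ S b) (h2' : S' c = (S a).reverse ++ S c)
    (h3 : ∀ j, j ≠ a → j ≠ b → j ≠ c → S' j = S j) :
    (Mod.dup a b c).Run ((S a).length + 1) S S' := by
  have key : ∀ (x : List Bool) (k : K),
      outOn (tOut (fun (_ : Unit) y => ((), [(b, y), (c, y)])) (fun _ => []) () x) k =
        if k = b ∨ k = c then x else [] := by
    intro x k
    induction x with
    | nil => simp [tOut, outOn]
    | cons y x ih =>
      simp only [tOut]
      rw [outOn_append, ih]
      by_cases hb : k = b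
      · subst hb; simp [outOn, hbc.symm]
      · by_cases hc : k = c
        · subst hc; simp [outOn, hbc]
        · simp [outOn, hb, hc, Ne.symm hb, Ne.symm hc]
  refine Mod.Run.trans a _ _ () (fun s y p hp => ?_) S S' (fun k => ?_)
  · simp only [List.mem_cons, List.not_mem_nil, or_false] at hp
    rcases hp with rfl | rfl
    · exact hab.symm
    · exact hac.symm
  · rw [key]
    by_cases hb : k = b
    · subst hb; simp [update_of_ne hab.symm, h2]
    · by_cases hc : k = c
      · subst hc; simp [update_of_ne hac.symm, h2']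
      · by_cases ha : k = a
        · subst ha; simp [h1, hb, hc]
        · simp [hb, hc, update_of_ne ha, h3 k ha hb hc]

end Pieces

namespace PT

variable {α β : Type} {e F G : α → List Bool}

theorem congr (h : PT e F) (hG : ∀ a, F a = G a) : PT e G := by
  rw [← funext hG]; exact h

theorem reindex (h : PT e F) (φ : β → α) : PT (fun b => e (φ b)) (fun b => F (φ b)) := by
  obtain ⟨T⟩ := h
  exact ⟨⟨T.toTM2ComputableAux, T.time, fun b => T.outputsFun (φ b)⟩⟩

theorem refl (e : α → List Bool) : PT e e := by
  have h : PT (id : List Bool → List Bool) id := ⟨idComputableInPolyTime id⟩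
  exact h.reindex e

theorem only3 (i : Fin 3) (x : List Bool) :
    only i x = ![only i x 0, only i x 1, only i x 2] := by
  funext k; fin_cases k <;> rfl

theorem only5 (i : Fin 5) (x : List Bool) :
    only i x = ![only i x 0, only i x 1, only i x 2, only i x 3, only i x 4] := by
  funext k; fin_cases k <;> rfl

/-- Composition. -/
theorem trans (h₁ : PT e F) (h₂ : PT F G) : PT e G := by
  obtain ⟨M, p, hM⟩ := h₁.to_mod
  obtain ⟨N, q, hN⟩ := h₂.to_mod
  refine PT.of_mod ((M.box (0 : Fin 3) 1 (by decide)).seq (N.box 1 2 (by decide))) 0 2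
    ((Bd.len.eval p).add (h₁.bd.eval q)) (fun a => ?_)
  refine ((hM a).box 0 1 _ _ (only 1 (F a)) rfl rfl rfl rfl ?_).seq
    ((hN a).box 1 2 _ _ _ rfl rfl rfl rfl ?_)
  · intro j h1 h2; simp [only, h1, h2]
  · intro j h1 h2; simp [only, h1, h2]

/-- Apply a polynomial-time string function. -/
theorem comp {g : List Bool → List Bool} (hg : PT id g) (h : PT e F) :
    PT e (fun a => g (F a)) := h.trans (hg.reindex F)

/-- Finite-state transducers run in polynomial time. -/
theorem transducer {τ : Type} [Fintype τ] (δ : τ → Bool → τ × List Bool) (fin : τ → List Bool)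
    (s₀ : τ) (h : PT e F) : PT e (fun a => tOut δ fin s₀ (F a)) := by
  refine PT.comp (g := fun x => tOut δ fin s₀ x) ?_ h
  obtain ⟨C, hC, hC'⟩ : ∃ C, (∀ s b, (δ s b).2.length ≤ C) ∧ ∀ s, (fin s).length ≤ C := by
    refine ⟨Finset.univ.sup (fun p : τ × Bool => (δ p.1 p.2).2.length) +
      Finset.univ.sup (fun s : τ => (fin s).length), fun s b => ?_, fun s => ?_⟩
    · have := Finset.le_sup (f := fun p : τ × Bool => (δ p.1 p.2).2.length)
        (Finset.mem_univ (s, b))
      exact this.trans (Nat.le_add_right _ _)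
    · have := Finset.le_sup (f := fun s : τ => (fin s).length) (Finset.mem_univ s)
      exact this.trans (Nat.le_add_left _ _)
  have hlen : ∀ (x : List Bool) (s : τ), (tOut δ fin s x).length ≤ C * x.length + C := by
    intro x
    induction x with
    | nil => intro s; simpa [tOut] using hC' s
    | cons b x ih =>
      intro s
      have h1 := ih (δ s b).1
      have h2 := hC s b
      simp only [tOut, List.length_append, List.length_cons, Nat.mul_succ]
      omega
  refine PT.of_mod ((Mod.tr1 (0 : Fin 3) 1 δ fin s₀).seq (Mod.mv 1 2)) 0 2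
    ((Bd.len.add (Bd.const 1)).add ((((Bd.const C).mul Bd.len).add (Bd.const C)).add (Bd.const 1)))
    (fun x => ?_)
  have h1 := Mod.Run.tr1 (0 : Fin 3) 1 (by decide) δ fin s₀ (only 0 x)
    (only 1 (tOut δ fin s₀ x).reverse) rfl (by simp [only]) (by
      intro j h1 h2; simp [only, h1, h2])
  have h2 := Mod.Run.mv (1 : Fin 3) 2 (by decide) (only 1 (tOut δ fin s₀ x).reverse)
    (only 2 (tOut δ fin s₀ x)) rfl (by simp [only]) (by
      intro j h1 h2; simp [only, h1, h2])
  refine (h1.seq h2).mono ?_
  have := hlen x s₀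
  simp only [only, if_true, List.length_reverse, id]
  omega

/-- Concatenation. -/
theorem append (h₁ : PT e F) (h₂ : PT e G) : PT e (fun a => F a ++ G a) := by
  obtain ⟨M, p, hM⟩ := h₁.to_mod
  obtain ⟨N, q, hN⟩ := h₂.to_mod
  refine PT.of_mod ((((((Mod.mv (0 : Fin 5) 1).seq (Mod.dup 1 0 2)).seq
    (M.box 0 3 (by decide))).seq (N.box 2 4 (by decide))).seq (Mod.mv 3 1)).seq (Mod.mv 1 4)) 0 4
    ((((((Bd.len.add (Bd.const 1)).add (Bd.len.add (Bd.const 1))).add (Bd.len.eval p)).add
      (Bd.len.eval q)).add (h₁.bd.add (Bd.const 1))).add (h₁.bd.add (Bd.const 1))) (fun a => ?_)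
  have s1 := Mod.Run.mv (0 : Fin 5) 1 (by decide) ![e a, [], [], [], []]
    ![[], (e a).reverse, [], [], []] rfl (by simp) (by intro j; fin_cases j <;> simp)
  have s2 := Mod.Run.dup (1 : Fin 5) 0 2 (by decide) (by decide) (by decide)
    ![[], (e a).reverse, [], [], []] ![e a, [], e a, [], []] rfl (by simp) (by simp)
    (by intro j; fin_cases j <;> simp)
  have s3 := (hM a).box (0 : Fin 5) 3 (by decide) ![e a, [], e a, [], []]
    ![[], [], e a, F a, []] rfl rfl rfl rfl (by intro j; fin_cases j <;> simp)
  have s4 := (hN a).box (2 : Fin 5) 4 (by decide) ![[], [], e a, F a, []]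
    ![[], [], [], F a, G a] rfl rfl rfl rfl (by intro j; fin_cases j <;> simp)
  have s5 := Mod.Run.mv (3 : Fin 5) 1 (by decide) ![[], [], [], F a, G a]
    ![[], (F a).reverse, [], [], G a] rfl (by simp) (by intro j; fin_cases j <;> simp)
  have s6 := Mod.Run.mv (1 : Fin 5) 4 (by decide) ![[], (F a).reverse, [], [], G a]
    ![[], [], [], [], F a ++ G a] rfl (by simp) (by intro j; fin_cases j <;> simp)
  rw [only5 0, only5 4]
  refine (((((s1.seq s2).seq s3).seq s4).seq s5).seq s6).mono ?_
  simp

/-- Iteration of a polynomial-time step, as many times as `C a` has bits, when the states stay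
polynomially small. -/
theorem iterate {enc : β → List Bool} {h : β → β} (hh : PT enc (fun b => enc (h b)))
    {C : α → List Bool} (hC : PT e C) {s : α → β} (hs : PT e (fun a => enc (s a)))
    {t : α → ℕ} (ht : Bd e t)
    (hb : ∀ a i, i ≤ (C a).length → (enc (h^[i] (s a))).length ≤ t a) :
    PT e (fun a => enc (h^[(C a).length] (s a))) := by
  obtain ⟨M, p, hM⟩ := hC.to_mod
  obtain ⟨N, q, hN⟩ := hs.to_mod
  obtain ⟨H, r, hH⟩ := hh.to_mod
  let body : Mod (Fin 5) := ((H.box 4 0 (by decide)).seq (Mod.mv 0 1)).seq (Mod.mv 1 4)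
  have hbody : ∀ (b : β) (c : List Bool), body.Run
      (r.eval (enc b).length + ((enc (h b)).length + 1) + ((enc (h b)).length + 1))
      ![[], [], [], c, enc b] ![[], [], [], c, enc (h b)] := by
    intro b c
    have s1 := (hH b).box (4 : Fin 5) 0 (by decide) ![[], [], [], c, enc b]
      ![enc (h b), [], [], c, []] rfl rfl rfl rfl (by intro j; fin_cases j <;> simp)
    have s2 := Mod.Run.mv (0 : Fin 5) 1 (by decide) ![enc (h b), [], [], c, []]
      ![[], (enc (h b)).reverse, [], c, []] rfl (by simp) (by intro j; fin_cases j <;> simp)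
    have s3 := Mod.Run.mv (1 : Fin 5) 4 (by decide) ![[], (enc (h b)).reverse, [], c, []]
      ![[], [], [], c, enc (h b)] rfl (by simp) (by intro j; fin_cases j <;> simp)
    refine ((s1.seq s2).seq s3).mono ?_
    simp
  have hloop : ∀ (T : ℕ) (c : List Bool) (b : β),
      (∀ i, i ≤ c.length → (enc (h^[i] b)).length ≤ T) →
      (Mod.forEach 3 body).Run (c.length * (r.eval T + 2 * T + 3) + 1)
        ![[], [], [], c, enc b] ![[], [], [], [], enc (h^[c.length] b)] := by
    intro T c
    induction c with
    | nil => intro b _; simpa using Mod.Run.forEach_done (M := body) (k := 3) rfl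
    | cons y c ih =>
      intro b hb
      have h1 := hbody b c
      have h2 := ih (h b) (fun i hi => by
        have := hb (i + 1) (by simpa using hi)
        rwa [iterate_succ_apply] at this)
      have e1 : update ![[], [], [], y :: c, enc b] (3 : Fin 5) c = ![[], [], [], c, enc b] := by
        funext j; fin_cases j <;> simp
      have h1' : body.Run
          (r.eval (enc b).length + ((enc (h b)).length + 1) + ((enc (h b)).length + 1)) (update ![[], [], [], y :: c, enc b] (3 : Fin 5) c)
          ![[], [], [], c, enc (h b)] := by rw [e1]; exact h1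
      refine (Mod.Run.forEach_step (b := y) (k := 3) (S := ![[], [], [], y :: c, enc b])
        rfl h1' h2).mono ?_
      have b0 : (enc b).length ≤ T := hb 0 (by simp)
      have b1 : (enc (h b)).length ≤ T := hb 1 (by simp)
      have b2 := eval_mono r b0
      simp only [List.length_cons, Nat.succ_mul]
      omega
  refine PT.of_mod (((((Mod.mv (0 : Fin 5) 1).seq (Mod.dup 1 0 2)).seq
    (M.box 0 3 (by decide))).seq (N.box 2 4 (by decide))).seq (Mod.forEach 3 body)) 0 4
    (((((Bd.len.add (Bd.const 1)).add (Bd.len.add (Bd.const 1))).add (Bd.len.eval p)).add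
      (Bd.len.eval q)).add ((hC.bd.mul (((ht.eval r).add ((Bd.const 2).mul ht)).add
        (Bd.const 3))).add (Bd.const 1))) (fun a => ?_)
  have s1 := Mod.Run.mv (0 : Fin 5) 1 (by decide) ![e a, [], [], [], []]
    ![[], (e a).reverse, [], [], []] rfl (by simp) (by intro j; fin_cases j <;> simp)
  have s2 := Mod.Run.dup (1 : Fin 5) 0 2 (by decide) (by decide) (by decide)
    ![[], (e a).reverse, [], [], []] ![e a, [], e a, [], []] rfl (by simp) (by simp)
    (by intro j; fin_cases j <;> simp)
  have s3 := (hM a).box (0 : Fin 5) 3 (by decide) ![e a, [], e a, [], []]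
    ![[], [], e a, C a, []] rfl rfl rfl rfl (by intro j; fin_cases j <;> simp)
  have s4 := (hN a).box (2 : Fin 5) 4 (by decide) ![[], [], e a, C a, []]
    ![[], [], [], C a, enc (s a)] rfl rfl rfl rfl (by intro j; fin_cases j <;> simp)
  have s5 := hloop (t a) (C a) (s a) (hb a)
  rw [only5 0, only5 4]
  refine ((((s1.seq s2).seq s3).seq s4).seq s5).mono ?_
  simp

end PT

end Pool.Agent.PolyT
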