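import Mathlib
import Pool.Prelude.Def_H_3587d628

/-!
Core of a small library for polynomial-time computability on Mathlib's stack machines.
This file: step relation, relabelling, sequencing, loops and embedding of a machine in a larger one.
-/

set_option autoImplicit false

namespace Pool.Agent.PolyT

open Turing Turing.TM2 Function

section Steps

variable {K : Type} [DecidableEq K] {Γ : K → Type} {Λ Λ' σ : Type}

/-- `Steps M n c d`: the machine goes from `c` to `d` in exactly `n` steps. -/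
inductive Steps (M : Λ → Stmt Γ Λ σ) : ℕ → Cfg Γ Λ σ → Cfg Γ Λ σ → Prop
  | refl (c : Cfg Γ Λ σ) : Steps M 0 c c
  | head (l : Λ) (v : σ) (S : ∀ k, List (Γ k)) {n : ℕ} {d : Cfg Γ Λ σ} :
      Steps M n (stepAux (M l) v S) d → Steps M (n + 1) ⟨some l, v, S⟩ d

theorem Steps.trans {M : Λ → Stmt Γ Λ σ} {m n : ℕ} {a b c : Cfg Γ Λ σ}
    (h₁ : Steps M m a b) (h₂ : Steps M n b c) : Steps M (n + m) a c := by
  induction h₁ with
  | refl c => simpa using h₂
  | head l v S _ ih => exact Steps.head l v S (ih h₂)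

theorem iterate_none {τ : Type} (f : τ → Option τ) (n : ℕ) :
    (flip bind f)^[n] (none : Option τ) = none := by
  induction n with
  | zero => rfl
  | succ n ih => rw [iterate_succ_apply]; exact ih

theorem steps_iff {M : Λ → Stmt Γ Λ σ} {n : ℕ} {c d : Cfg Γ Λ σ} :
    Steps M n c d ↔ (flip bind (step M))^[n] (some c) = some d := by
  constructor
  · intro h
    induction h with
    | refl c => rfl
    | head l v S _ ih => rw [iterate_succ_apply]; exact ih
  · induction n generalizing c with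
    | zero => intro h; cases h; exact Steps.refl _
    | succ n ih =>
      intro h
      rw [iterate_succ_apply] at h
      obtain ⟨l, v, S⟩ := c
      cases l with
      | none =>
        have : (flip bind (step M)) (some (⟨none, v, S⟩ : Cfg Γ Λ σ)) = none := rfl
        rw [this, iterate_none] at h
        cases h
      | some l => exact Steps.head l v S (ih h)

/-- Rename labels, and replace `halt` by a jump to `k` when `k` is a label. -/
def relabel (f : Λ → Λ') (k : Option Λ') : Stmt Γ Λ σ → Stmt Γ Λ' σ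
  | .push j g q => .push j g (relabel f k q)
  | .peek j g q => .peek j g (relabel f k q)
  | .pop j g q => .pop j g (relabel f k q)
  | .load g q => .load g (relabel f k q)
  | .branch g q₁ q₂ => .branch g (relabel f k q₁) (relabel f k q₂)
  | .goto g => .goto (fun v => f (g v))
  | .halt => match k with
    | none => .halt
    | some l => .goto (fun _ => l)

/-- The matching map on configurations. -/
def relabelCfg (f : Λ → Λ') (k : Option Λ') (c : Cfg Γ Λ σ) : Cfg Γ Λ' σ :=
  ⟨match c.l with | none => k | some l => some (f l), c.var, c.stk⟩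

theorem stepAux_relabel (f : Λ → Λ') (k : Option Λ') (q : Stmt Γ Λ σ) (v : σ)
    (S : ∀ k, List (Γ k)) :
    stepAux (relabel f k q) v S = relabelCfg f k (stepAux q v S) := by
  induction q generalizing v S with
  | push j g q ih => simp only [relabel, stepAux, ih]
  | peek j g q ih => simp only [relabel, stepAux, ih]
  | pop j g q ih => simp only [relabel, stepAux, ih]
  | load g q ih => simp only [relabel, stepAux, ih]
  | branch g q₁ q₂ ih₁ ih₂ =>
    simp only [relabel, stepAux, ih₁, ih₂]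
    cases g v <;> rfl
  | goto g => rfl
  | halt => cases k <;> rfl

theorem Steps.relabel {M : Λ → Stmt Γ Λ σ} {M' : Λ' → Stmt Γ Λ' σ} (f : Λ → Λ') (k : Option Λ')
    (hM : ∀ l, M' (f l) = relabel f k (M l)) {n : ℕ} {c d : Cfg Γ Λ σ} (h : Steps M n c d) :
    Steps M' n (relabelCfg f k c) (relabelCfg f k d) := by
  induction h with
  | refl c => exact Steps.refl _
  | head l v S _ ih =>
    refine Steps.head (f l) v S ?_
    rw [hM, stepAux_relabel]
    exact ih

/-- A bound on the number of pushes in one step. -/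
def pushes : Stmt Γ Λ σ → ℕ
  | .push _ _ q => pushes q + 1
  | .peek _ _ q => pushes q
  | .pop _ _ q => pushes q
  | .load _ q => pushes q
  | .branch _ q₁ q₂ => pushes q₁ + pushes q₂
  | .goto _ => 0
  | .halt => 0

theorem length_stepAux_le (q : Stmt Γ Λ σ) (v : σ) (S : ∀ k, List (Γ k)) (k : K) :
    ((stepAux q v S).stk k).length ≤ (S k).length + pushes q := by
  induction q generalizing v S with
  | push j g q ih =>
    simp only [stepAux, pushes]
    refine (ih _ _).trans ?_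
    by_cases h : k = j
    · subst h; simp; omega
    · rw [update_of_ne h]; omega
  | peek j g q ih => simp only [stepAux, pushes]; exact ih _ _
  | pop j g q ih =>
    simp only [stepAux, pushes]
    refine (ih _ _).trans ?_
    by_cases h : k = j
    · subst h; simp
    · rw [update_of_ne h]
  | load g q ih => simp only [stepAux, pushes]; exact ih _ _
  | branch g q₁ q₂ ih₁ ih₂ =>
    simp only [stepAux, pushes]
    cases g v
    · exact (ih₂ _ _).trans (by omega)
    · exact (ih₁ _ _).trans (by omega)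
  | goto g => simp [stepAux, pushes]
  | halt => simp [stepAux, pushes]

theorem Steps.length_le {M : Λ → Stmt Γ Λ σ} {C : ℕ} (hC : ∀ l, pushes (M l) ≤ C)
    {n : ℕ} {c d : Cfg Γ Λ σ} (h : Steps M n c d) (k : K) :
    (d.stk k).length ≤ (c.stk k).length + C * n := by
  induction h with
  | refl c => simp
  | head l v S _ ih =>
    have h1 := length_stepAux_le (M l) v S k
    have h2 := hC l
    simp only [Nat.mul_succ]
    omega

end Steps

/-- A program fragment: finitely many labels, an entry label, and a statement per label. -/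
structure Code {K : Type} (Γ : K → Type) (σ : Type) : Type 1 where
  Λ : Type
  fin : Fintype Λ
  entry : Λ
  code : Λ → Stmt Γ Λ σ

namespace Code

variable {K : Type} [DecidableEq K] {Γ : K → Type} {σ : Type}

/-- The fragment started in state v, S halts in state v1, S1 within `t` steps. -/
def Run (c : Code Γ σ) (t : ℕ) (v : σ) (S : ∀ k, List (Γ k)) (v' : σ) (S' : ∀ k, List (Γ k)) :
    Prop :=
  ∃ n ≤ t, Steps c.code n ⟨some c.entry, v, S⟩ ⟨none, v', S'⟩

theorem Run.mono {c : Code Γ σ} {t t' : ℕ} {v v' : σ} {S S' : ∀ k, List (Γ k)}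
    (h : c.Run t v S v' S') (ht : t ≤ t') : c.Run t' v S v' S' := by
  obtain ⟨n, hn, h⟩ := h
  exact ⟨n, hn.trans ht, h⟩

/-- Sequencing. -/
def seq (c d : Code Γ σ) : Code Γ σ where
  Λ := c.Λ ⊕ d.Λ
  fin := @instFintypeSum _ _ c.fin d.fin
  entry := Sum.inl c.entry
  code := fun l => match l with
    | Sum.inl l => relabel Sum.inl (some (Sum.inr d.entry)) (c.code l)
    | Sum.inr l => relabel Sum.inr none (d.code l)

theorem Run.seq {c d : Code Γ σ} {t t' : ℕ} {v v' v'' : σ} {S S' S'' : ∀ k, List (Γ k)}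
    (h₁ : c.Run t v S v' S') (h₂ : d.Run t' v' S' v'' S'') :
    (c.seq d).Run (t + t') v S v'' S'' := by
  obtain ⟨n, hn, h₁⟩ := h₁
  obtain ⟨m, hm, h₂⟩ := h₂
  have e₁ := h₁.relabel (M' := (c.seq d).code) Sum.inl (some (Sum.inr d.entry)) (fun _ => rfl)
  have e₂ := h₂.relabel (M' := (c.seq d).code) Sum.inr none (fun _ => rfl)
  exact ⟨m + n, by omega, e₁.trans e₂⟩

/-- A loop: the head statement `hd` jumps to `true` (run the body, then come back) or halts. -/
def loop (hd : Stmt Γ Unit σ) (c : Code Γ σ) : Code Γ σ where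
  Λ := Option c.Λ
  fin := @instFintypeOption _ c.fin
  entry := none
  code := fun l => match l with
    | none => relabel (fun _ => some c.entry) none hd
    | some l => relabel some (some none) (c.code l)

theorem Run.loop_done {hd : Stmt Γ Unit σ} {c : Code Γ σ} {v v' : σ} {S S' : ∀ k, List (Γ k)}
    (h : stepAux hd v S = ⟨none, v', S'⟩) : (loop hd c).Run 1 v S v' S' := by
  refine ⟨1, le_rfl, Steps.head _ _ _ ?_⟩
  show Steps (Λ := Option c.Λ) (loop hd c).code 0
    (stepAux (relabel (fun _ => some c.entry) none hd) v S) ⟨none, v', S'⟩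
  rw [stepAux_relabel, h]
  exact Steps.refl _

theorem Run.loop_step {hd : Stmt Γ Unit σ} {c : Code Γ σ} {t t' : ℕ} {v v₀ v₁ v₂ : σ}
    {S S₀ S₁ S₂ : ∀ k, List (Γ k)}
    (h : stepAux hd v S = ⟨some (), v₀, S₀⟩) (h₁ : c.Run t v₀ S₀ v₁ S₁)
    (h₂ : (loop hd c).Run t' v₁ S₁ v₂ S₂) : (loop hd c).Run (t' + t + 1) v S v₂ S₂ := by
  obtain ⟨n, hn, h₁⟩ := h₁
  obtain ⟨m, hm, h₂⟩ := h₂
  have e₁ := h₁.relabel (M' := (loop hd c).code) some (some none) (fun _ => rfl)
  refine ⟨m + n + 1, by omega, Steps.head _ _ _ ?_⟩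
  show Steps (Λ := Option c.Λ) (loop hd c).code (m + n)
    (stepAux (relabel (fun _ => some c.entry) none hd) v S) ⟨none, v₂, S₂⟩
  rw [stepAux_relabel, h]
  exact e₁.trans h₂

/-- A fragment with a single label. -/
def single (q : Stmt Γ Unit σ) : Code Γ σ where
  Λ := Unit
  fin := inferInstance
  entry := ()
  code := fun _ => q

theorem Run.single_done {q : Stmt Γ Unit σ} {v v' : σ} {S S' : ∀ k, List (Γ k)}
    (h : stepAux q v S = ⟨none, v', S'⟩) : (single q).Run 1 v S v' S' := by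
  refine ⟨1, le_rfl, Steps.head _ _ _ ?_⟩
  show Steps (fun _ : Unit => q) 0 (stepAux q v S) ⟨none, v', S'⟩
  rw [h]
  exact Steps.refl _

theorem Run.single_step {q : Stmt Γ Unit σ} {t : ℕ} {v v₀ v₁ : σ} {S S₀ S₁ : ∀ k, List (Γ k)}
    (h : stepAux q v S = ⟨some (), v₀, S₀⟩) (h₁ : (single q).Run t v₀ S₀ v₁ S₁) :
    (single q).Run (t + 1) v S v₁ S₁ := by
  obtain ⟨n, hn, h₁⟩ := h₁
  refine ⟨n + 1, by omega, Steps.head _ _ _ ?_⟩
  show Steps (fun _ : Unit => q) n (stepAux q v S) ⟨none, v₁, S₁⟩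
  rw [h]
  exact h₁

end Code

/-- Data to embed a machine in a larger one. -/
structure Emb {K₁ K₂ : Type} (Γ₁ : K₁ → Type) (σ₁ : Type) (Γ₂ : K₂ → Type) (σ₂ : Type) where
  e : K₁ → K₂
  inj : Injective e
  up : ∀ k, Γ₁ k → Γ₂ (e k)
  down : ∀ k, Γ₂ (e k) → Γ₁ k
  down_up : ∀ k x, down k (up k x) = x
  get : σ₂ → σ₁
  set : σ₂ → σ₁ → σ₂
  get_set : ∀ w v, get (set w v) = v
  set_set : ∀ w v v', set (set w v) v' = set w v'

namespace Emb

variable {K₁ K₂ : Type} {Γ₁ : K₁ → Type} {σ₁ : Type} {Γ₂ : K₂ → Type} {σ₂ : Type} {Λ : Type}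

/-- Transport of a statement along an embedding. -/
def lift (E : Emb Γ₁ σ₁ Γ₂ σ₂) : Stmt Γ₁ Λ σ₁ → Stmt Γ₂ Λ σ₂
  | .push j g q => .push (E.e j) (fun w => E.up j (g (E.get w))) (lift E q)
  | .peek j g q => .peek (E.e j) (fun w o => E.set w (g (E.get w) (o.map (E.down j)))) (lift E q)
  | .pop j g q => .pop (E.e j) (fun w o => E.set w (g (E.get w) (o.map (E.down j)))) (lift E q)
  | .load g q => .load (fun w => E.set w (g (E.get w))) (lift E q)
  | .branch g q₁ q₂ => .branch (fun w => g (E.get w)) (lift E q₁) (lift E q₂)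
  | .goto g => .goto (fun w => g (E.get w))
  | .halt => .halt

/-- The simulation relation, relative to a frame w₀, R₀. -/
structure Rel (E : Emb Γ₁ σ₁ Γ₂ σ₂) (w₀ : σ₂) (R₀ : ∀ k, List (Γ₂ k)) (c : Cfg Γ₁ Λ σ₁)
    (d : Cfg Γ₂ Λ σ₂) : Prop where
  lab : d.l = c.l
  var : d.var = E.set w₀ c.var
  stk : ∀ k, d.stk (E.e k) = (c.stk k).map (E.up k)
  frame : ∀ j, (∀ k, E.e k ≠ j) → d.stk j = R₀ j

theorem Rel.unique {E : Emb Γ₁ σ₁ Γ₂ σ₂} {w₀ : σ₂} {R₀ : ∀ k, List (Γ₂ k)} {c : Cfg Γ₁ Λ σ₁}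
    {d d' : Cfg Γ₂ Λ σ₂} (h : E.Rel w₀ R₀ c d) (h' : E.Rel w₀ R₀ c d') : d = d' := by
  obtain ⟨l, v, S⟩ := d
  obtain ⟨l', v', S'⟩ := d'
  have e1 : l = l' := h.lab.trans h'.lab.symm
  have e2 : v = v' := h.var.trans h'.var.symm
  have e3 : S = S' := by
    funext j
    by_cases hj : ∃ k, E.e k = j
    · obtain ⟨k, rfl⟩ := hj
      exact (h.stk k).trans (h'.stk k).symm
    · push Not at hj
      exact (h.frame j hj).trans (h'.frame j hj).symm
  rw [e1, e2, e3]

variable [DecidableEq K₁] [DecidableEq K₂]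

theorem rel_update (E : Emb Γ₁ σ₁ Γ₂ σ₂) {R₀ R : ∀ k, List (Γ₂ k)} {S : ∀ k, List (Γ₁ k)}
    (hs : ∀ k, R (E.e k) = (S k).map (E.up k)) (hf : ∀ j, (∀ k, E.e k ≠ j) → R j = R₀ j)
    (j : K₁) (x : List (Γ₁ j)) :
    (∀ k, update R (E.e j) (x.map (E.up j)) (E.e k) = (update S j x k).map (E.up k)) ∧
    (∀ i, (∀ k, E.e k ≠ i) → update R (E.e j) (x.map (E.up j)) i = R₀ i) := by
  constructor
  · intro k
    by_cases h : k = j
    · subst h; simp
    · rw [update_of_ne h, update_of_ne (fun h' => h (E.inj h')), hs]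
  · intro i hi
    rw [update_of_ne (hi j).symm, hf i hi]

theorem stepAux_lift (E : Emb Γ₁ σ₁ Γ₂ σ₂) (w₀ : σ₂) (R₀ : ∀ k, List (Γ₂ k))
    (q : Stmt Γ₁ Λ σ₁) (v : σ₁) (S : ∀ k, List (Γ₁ k)) (R : ∀ k, List (Γ₂ k))
    (hs : ∀ k, R (E.e k) = (S k).map (E.up k)) (hf : ∀ j, (∀ k, E.e k ≠ j) → R j = R₀ j) :
    E.Rel w₀ R₀ (stepAux q v S) (stepAux (E.lift q) (E.set w₀ v) R) := by
  have hhead : ∀ (S : ∀ k, List (Γ₁ k)) (j : K₁),
      Option.map (E.down j) ((S j).map (E.up j)).head? = (S j).head? := by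
    intro S j
    cases S j with
    | nil => rfl
    | cons a l => simp [E.down_up]
  induction q generalizing v S R with
  | push j g q ih =>
    simp only [lift, stepAux, E.get_set]
    have := E.rel_update hs hf j (g v :: S j)
    rw [hs j]
    exact ih _ _ _ this.1 this.2
  | peek j g q ih =>
    simp only [lift, stepAux, E.get_set, E.set_set]
    rw [hs j, hhead]
    exact ih _ _ _ hs hf
  | pop j g q ih =>
    simp only [lift, stepAux, E.get_set, E.set_set]
    have := E.rel_update hs hf j (S j).tail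
    rw [hs j, hhead, ← List.map_tail]
    exact ih _ _ _ this.1 this.2
  | load g q ih =>
    simp only [lift, stepAux, E.get_set, E.set_set]
    exact ih _ _ _ hs hf
  | branch g q₁ q₂ ih₁ ih₂ =>
    simp only [lift, stepAux, E.get_set]
    cases g v
    · exact ih₂ _ _ _ hs hf
    · exact ih₁ _ _ _ hs hf
  | goto g => exact ⟨by simp [lift, E.get_set], rfl, hs, hf⟩
  | halt => exact ⟨rfl, rfl, hs, hf⟩

theorem steps_lift (E : Emb Γ₁ σ₁ Γ₂ σ₂) (w₀ : σ₂) (R₀ : ∀ k, List (Γ₂ k))
    {M : Λ → Stmt Γ₁ Λ σ₁} {n : ℕ} {c c' : Cfg Γ₁ Λ σ₁} (h : Steps M n c c')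
    {d d' : Cfg Γ₂ Λ σ₂} (hd : E.Rel w₀ R₀ c d) (hd' : E.Rel w₀ R₀ c' d') :
    Steps (fun l => E.lift (M l)) n d d' := by
  induction h generalizing d with
  | refl c => rw [hd.unique hd']; exact Steps.refl _
  | head l v S _ ih =>
    obtain ⟨l', w, R⟩ := d
    have e1 : l' = some l := hd.lab
    have e2 : w = E.set w₀ v := hd.var
    subst e1 e2
    exact Steps.head l _ R (ih (E.stepAux_lift w₀ R₀ (M l) v S R hd.stk hd.frame) hd')

end Emb

namespace Code

variable {K₁ K₂ : Type} {Γ₁ : K₁ → Type} {σ₁ : Type} {Γ₂ : K₂ → Type} {σ₂ : Type}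

/-- Transport of a fragment along an embedding. -/
def lift (E : Emb Γ₁ σ₁ Γ₂ σ₂) (c : Code Γ₁ σ₁) : Code Γ₂ σ₂ where
  Λ := c.Λ
  fin := c.fin
  entry := c.entry
  code := fun l => E.lift (c.code l)

variable [DecidableEq K₁] [DecidableEq K₂]

theorem Run.lift (E : Emb Γ₁ σ₁ Γ₂ σ₂) {c : Code Γ₁ σ₁} {t : ℕ} {v v' : σ₁}
    {S S' : ∀ k, List (Γ₁ k)} (h : c.Run t v S v' S') (w₀ : σ₂) {R R' : ∀ k, List (Γ₂ k)}
    (hs : ∀ k, R (E.e k) = (S k).map (E.up k)) (hs' : ∀ k, R' (E.e k) = (S' k).map (E.up k))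
    (hf : ∀ j, (∀ k, E.e k ≠ j) → R' j = R j) :
    (c.lift E).Run t (E.set w₀ v) R (E.set w₀ v') R' := by
  obtain ⟨n, hn, h⟩ := h
  exact ⟨n, hn, E.steps_lift w₀ R h ⟨rfl, rfl, hs, fun _ _ => rfl⟩ ⟨rfl, rfl, hs', hf⟩⟩

end Code

end Pool.Agent.PolyT
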