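import Pool.Agent.Lib.helper72.PTCore

/-!
Modules: program fragments acting on public bit stacks, with hidden private stacks and state.
-/

set_option autoImplicit false

namespace Pool.Agent.PolyT

open Turing Turing.TM2 Function

/-- Alphabets: bits on the public stacks, `Γ` on the private ones. -/
def Alph (K : Type) {J : Type} (Γ : J → Type) : K ⊕ J → Type
  | Sum.inl _ => Bool
  | Sum.inr j => Γ j

/-- Public contents `S`, private stacks empty. -/
def ext {K J : Type} (Γ : J → Type) (S : K → List Bool) : ∀ x : K ⊕ J, List (Alph K Γ x)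
  | Sum.inl k => S k
  | Sum.inr _ => []

theorem ext_update {K J : Type} [DecidableEq K] [DecidableEq J] (Γ : J → Type)
    (S : K → List Bool) (k : K) (x : List Bool) :
    update (ext Γ S) (Sum.inl k) x = ext Γ (update S k x) := by
  funext j
  cases j with
  | inl j =>
    by_cases h : j = k
    · subst h
      rw [update_self]
      show x = update S j x j
      rw [update_self]
    · rw [update_of_ne (by simpa using h)]
      show S j = update S k x j
      rw [update_of_ne h]
  | inr j => rw [update_of_ne (by simp)]; rfl

theorem stepAux_pop_ext {K J Λ σ : Type} [DecidableEq K] [DecidableEq J] (Γ : J → Type)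
    (S : K → List Bool) (k : K) (f : σ → Option Bool → σ) (q : Stmt (Alph K Γ) Λ σ) (v : σ) :
    stepAux (.pop (Sum.inl k) f q) v (ext Γ S) =
      stepAux q (f v (S k).head?) (ext Γ (update S k (S k).tail)) := by
  rw [← ext_update]; rfl

/-- Alphabets on a sum of stack index types. -/
def sumAlph {J₁ J₂ : Type} (Γ₁ : J₁ → Type) (Γ₂ : J₂ → Type) : J₁ ⊕ J₂ → Type
  | Sum.inl j => Γ₁ j
  | Sum.inr j => Γ₂ j

/-- A module over the public bit stacks `K`. -/
structure Mod (K : Type) : Type 1 where
  J : Type
  decJ : DecidableEq J
  finJ : Fintype J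
  Γ : J → Type
  σ : Type
  finσ : Fintype σ
  start : σ
  code : Code (Alph K Γ) σ

attribute [instance] Mod.decJ Mod.finJ Mod.finσ

namespace Mod

variable {K K' : Type} [DecidableEq K] [DecidableEq K']

/-- The module turns the public contents `S` into `S'` within `t` steps. -/
def Run (M : Mod K) (t : ℕ) (S S' : K → List Bool) : Prop :=
  M.code.Run t M.start (ext M.Γ S) M.start (ext M.Γ S')

theorem Run.mono {M : Mod K} {t t' : ℕ} {S S' : K → List Bool} (h : M.Run t S S') (ht : t ≤ t') :
    M.Run t' S S' := Code.Run.mono h ht

/-- Left embedding for sequencing. -/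
def embL (M N : Mod K) : Emb (Alph K M.Γ) M.σ (Alph K (sumAlph M.Γ N.Γ)) (M.σ × N.σ) where
  e := Sum.map id Sum.inl
  inj := Sum.map_injective.2 ⟨injective_id, Sum.inl_injective⟩
  up := fun k => match k with | Sum.inl _ => id | Sum.inr _ => id
  down := fun k => match k with | Sum.inl _ => id | Sum.inr _ => id
  down_up := fun k x => by cases k <;> rfl
  get := Prod.fst
  set := fun w v => (v, w.2)
  get_set := fun _ _ => rfl
  set_set := fun _ _ _ => rfl

/-- Right embedding for sequencing. -/
def embR (M N : Mod K) : Emb (Alph K N.Γ) N.σ (Alph K (sumAlph M.Γ N.Γ)) (M.σ × N.σ) where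
  e := Sum.map id Sum.inr
  inj := Sum.map_injective.2 ⟨injective_id, Sum.inr_injective⟩
  up := fun k => match k with | Sum.inl _ => id | Sum.inr _ => id
  down := fun k => match k with | Sum.inl _ => id | Sum.inr _ => id
  down_up := fun k x => by cases k <;> rfl
  get := Prod.snd
  set := fun w v => (w.1, v)
  get_set := fun _ _ => rfl
  set_set := fun _ _ _ => rfl

/-- Sequencing of modules. -/
def seq (M N : Mod K) : Mod K where
  J := M.J ⊕ N.J
  decJ := inferInstance
  finJ := inferInstance
  Γ := sumAlph M.Γ N.Γ
  σ := M.σ × N.σ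
  finσ := inferInstance
  start := (M.start, N.start)
  code := (M.code.lift (embL M N)).seq (N.code.lift (embR M N))

theorem Run.seq {M N : Mod K} {t t' : ℕ} {S S' S'' : K → List Bool} (h₁ : M.Run t S S')
    (h₂ : N.Run t' S' S'') : (M.seq N).Run (t + t') S S'' := by
  have e₁ := Code.Run.lift (embL M N) h₁ (M.start, N.start)
    (R := ext (sumAlph M.Γ N.Γ) S) (R' := ext (sumAlph M.Γ N.Γ) S')
    (fun k => by cases k <;> exact (List.map_id _).symm)
    (fun k => by cases k <;> exact (List.map_id _).symm)
    (fun j hj => by
      cases j with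
      | inl j => exact absurd rfl (hj (Sum.inl j))
      | inr j => rfl)
  have e₂ := Code.Run.lift (embR M N) h₂ (M.start, N.start)
    (R := ext (sumAlph M.Γ N.Γ) S') (R' := ext (sumAlph M.Γ N.Γ) S'')
    (fun k => by cases k <;> exact (List.map_id _).symm)
    (fun k => by cases k <;> exact (List.map_id _).symm)
    (fun j hj => by
      cases j with
      | inl j => exact absurd rfl (hj (Sum.inl j))
      | inr j => rfl)
  exact Code.Run.seq e₁ e₂

/-- Embedding that adds a flag to the state. -/
def embFlag (M : Mod K) : Emb (Alph K M.Γ) M.σ (Alph K M.Γ) (M.σ × Bool) where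
  e := id
  inj := injective_id
  up := fun _ => id
  down := fun _ => id
  down_up := fun _ _ => rfl
  get := Prod.fst
  set := fun w v => (v, w.2)
  get_set := fun _ _ => rfl
  set_set := fun _ _ _ => rfl

/-- Pop one bit of stack `k` and run `M`, until stack `k` is empty. -/
def forEach (k : K) (M : Mod K) : Mod K where
  J := M.J
  decJ := M.decJ
  finJ := M.finJ
  Γ := M.Γ
  σ := M.σ × Bool
  finσ := inferInstance
  start := (M.start, false)
  code := Code.loop
    (.pop (Sum.inl k) (fun w o => (w.1, o.isSome))
      (.branch (fun w => w.2) (.load (fun w => (w.1, false)) (.goto fun _ => ())) .halt))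
    (M.code.lift (embFlag M))

theorem Run.forEach_done {M : Mod K} {k : K} {S : K → List Bool} (h : S k = []) :
    (forEach k M).Run 1 S S := by
  refine Code.Run.loop_done ?_
  refine (stepAux_pop_ext M.Γ S k _ _ _).trans ?_
  have e : update S k (S k).tail = S := by
    rw [h, List.tail_nil, ← h, update_eq_self]
  rw [e, h]
  rfl

theorem Run.forEach_step {M : Mod K} {k : K} {t t' : ℕ} {S S₁ S₂ : K → List Bool} {b : Bool}
    {r : List Bool} (h : S k = b :: r) (h₁ : M.Run t (update S k r) S₁)
    (h₂ : (forEach k M).Run t' S₁ S₂) : (forEach k M).Run (t' + t + 1) S S₂ := by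
  have e₁ := Code.Run.lift (embFlag M) h₁ (M.start, false)
    (R := ext M.Γ (update S k r)) (R' := ext M.Γ S₁)
    (fun k => (List.map_id _).symm) (fun k => (List.map_id _).symm)
    (fun j hj => absurd rfl (hj j))
  refine Code.Run.loop_step ?_ e₁ h₂
  refine (stepAux_pop_ext M.Γ S k _ _ _).trans ?_
  rw [h]
  rfl

/-- Embedding that renames public stacks. -/
def embRen (e : K → K') (he : Injective e) (M : Mod K) :
    Emb (Alph K M.Γ) M.σ (Alph K' M.Γ) M.σ where
  e := Sum.map e id
  inj := Sum.map_injective.2 ⟨he, injective_id⟩
  up := fun k => match k with | Sum.inl _ => id | Sum.inr _ => id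
  down := fun k => match k with | Sum.inl _ => id | Sum.inr _ => id
  down_up := fun k x => by cases k <;> rfl
  get := id
  set := fun _ v => v
  get_set := fun _ _ => rfl
  set_set := fun _ _ _ => rfl

/-- Renaming of public stacks. -/
def rename (e : K → K') (he : Injective e) (M : Mod K) : Mod K' where
  J := M.J
  decJ := M.decJ
  finJ := M.finJ
  Γ := M.Γ
  σ := M.σ
  finσ := M.finσ
  start := M.start
  code := M.code.lift (embRen e he M)

theorem Run.rename {M : Mod K} (e : K → K') (he : Injective e) {t : ℕ} {S S' : K → List Bool}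
    (h : M.Run t S S') {R R' : K' → List Bool} (hs : ∀ k, R (e k) = S k)
    (hs' : ∀ k, R' (e k) = S' k) (hf : ∀ j, (∀ k, e k ≠ j) → R' j = R j) :
    (rename e he M).Run t R R' := by
  exact Code.Run.lift (embRen e he M) h M.start (R := ext M.Γ R) (R' := ext M.Γ R')
    (fun k => by
      cases k with
      | inl k => exact (hs k).trans (List.map_id _).symm
      | inr k => rfl)
    (fun k => by
      cases k with
      | inl k => exact (hs' k).trans (List.map_id _).symm
      | inr k => rfl)
    (fun j hj => by
      cases j with
      | inl j => exact hf j (fun k hk => hj (Sum.inl k) (congrArg Sum.inl hk))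
      | inr j => rfl)

end Mod

section Transducer

variable {K : Type} [DecidableEq K]

/-- Perform a list of pushes. -/
def pushAll (o : List (K × Bool)) (S : K → List Bool) : K → List Bool :=
  o.foldl (fun S p => update S p.1 (p.2 :: S p.1)) S

/-- The bits of `o` addressed to stack `k`, in order. -/
def outOn (o : List (K × Bool)) (k : K) : List Bool :=
  (o.filter (fun p => p.1 = k)).map Prod.snd

theorem pushAll_apply (o : List (K × Bool)) (S : K → List Bool) (k : K) :
    pushAll o S k = (outOn o k).reverse ++ S k := by
  induction o generalizing S with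
  | nil => simp [pushAll, outOn]
  | cons p o ih =>
    have : pushAll (p :: o) S = pushAll o (update S p.1 (p.2 :: S p.1)) := rfl
    rw [this, ih]
    by_cases h : p.1 = k
    · subst h; simp [outOn]
    · rw [update_of_ne (Ne.symm h)]; simp [outOn, h]

theorem pushAll_append (o o' : List (K × Bool)) (S : K → List Bool) :
    pushAll (o ++ o') S = pushAll o' (pushAll o S) := by
  simp [pushAll, List.foldl_append]

/-- All outputs of a finite-state transducer reading `x` from state `s`. -/
def tOut {τ ω : Type} (δ : τ → Bool → τ × List ω) (fin : τ → List ω) : τ → List Bool → List ω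
  | s, [] => fin s
  | s, b :: x => (δ s b).2 ++ tOut δ fin (δ s b).1 x

/-- A statement that performs a fixed list of pushes. -/
def pushStmt {Λ σ : Type} (o : List (K × Bool)) (q : Stmt (Alph K (Empty.elim : Empty → Type)) Λ σ) :
    Stmt (Alph K (Empty.elim : Empty → Type)) Λ σ :=
  o.foldr (fun p q => .push (Sum.inl p.1) (fun _ => p.2) q) q

theorem stepAux_pushStmt {Λ σ : Type} (o : List (K × Bool))
    (q : Stmt (Alph K (Empty.elim : Empty → Type)) Λ σ) (v : σ) (S : K → List Bool) :
    stepAux (pushStmt o q) v (ext _ S) = stepAux q v (ext _ (pushAll o S)) := by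
  induction o generalizing S with
  | nil => rfl
  | cons p o ih =>
    have : pushAll (p :: o) S = pushAll o (update S p.1 (p.2 :: S p.1)) := rfl
    rw [this, ← ih, ← ext_update]
    rfl

/-- Case distinction on the state. -/
def caseStmt {K₀ : Type} {Γ : K₀ → Type} {Λ σ : Type} [DecidableEq σ] (l : List σ)
    (f : σ → Stmt Γ Λ σ) : Stmt Γ Λ σ :=
  l.foldr (fun s q => .branch (fun w => decide (w = s)) (f s) q) .halt

theorem stepAux_caseStmt {K₀ : Type} [DecidableEq K₀] {Γ : K₀ → Type} {Λ σ : Type}
    [DecidableEq σ] (l : List σ) (f : σ → Stmt Γ Λ σ) (w : σ) (hw : w ∈ l)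
    (S : ∀ k, List (Γ k)) : stepAux (caseStmt l f) w S = stepAux (f w) w S := by
  induction l with
  | nil => cases hw
  | cons s l ih =>
    by_cases h : w = s
    · subst h; simp [caseStmt]
    · have hw' : w ∈ l := by simpa [h] using hw
      have := ih hw'
      simp only [caseStmt, List.foldr_cons, stepAux, h, decide_false, cond_false] at this ⊢
      exact this

open Classical in
/-- The statement of the transducer module. -/
noncomputable def transStmt {τ : Type} [Fintype τ] (a : K) (δ : τ → Bool → τ × List (K × Bool))
    (fin : τ → List (K × Bool)) (s₀ : τ) :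
    Stmt (Alph K (Empty.elim : Empty → Type)) Unit (τ × Option Bool) :=
  .pop (Sum.inl a) (fun w o => (w.1, o))
    (caseStmt (Finset.univ : Finset (τ × Option Bool)).toList fun w => match w.2 with
      | some b => pushStmt (δ w.1 b).2 (.load (fun _ => ((δ w.1 b).1, none)) (.goto fun _ => ()))
      | none => pushStmt (fin w.1) (.load (fun _ => (s₀, none)) .halt))

/-- Read stack `a` to the end through a finite-state transducer that pushes on other stacks. -/
noncomputable def Mod.trans {τ : Type} [Fintype τ] (a : K) (δ : τ → Bool → τ × List (K × Bool))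
    (fin : τ → List (K × Bool)) (s₀ : τ) : Mod K where
  J := Empty
  decJ := inferInstance
  finJ := inferInstance
  Γ := Empty.elim
  σ := τ × Option Bool
  finσ := inferInstance
  start := (s₀, none)
  code := Code.single (transStmt a δ fin s₀)

theorem pushAll_update_comm (o : List (K × Bool)) (a : K) (ho : ∀ p ∈ o, p.1 ≠ a)
    (S : K → List Bool) (x : List Bool) :
    pushAll o (update S a x) = update (pushAll o S) a x := by
  funext k
  by_cases h : k = a
  · subst h
    rw [pushAll_apply, update_self, update_self]
    have : outOn o k = [] := by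
      simp only [outOn, List.map_eq_nil_iff, List.filter_eq_nil_iff]
      intro p hp; simpa using ho p hp
    simp [this]
  · rw [pushAll_apply, update_of_ne h, update_of_ne h, pushAll_apply]

theorem trans_run_aux {τ : Type} [Fintype τ] (a : K) (δ : τ → Bool → τ × List (K × Bool))
    (fin : τ → List (K × Bool)) (s₀ : τ) (hδ : ∀ s b, ∀ p ∈ (δ s b).2, p.1 ≠ a)
    (x : List Bool) (s : τ) (S : K → List Bool) :
    (Code.single (transStmt a δ fin s₀)).Run (x.length + 1) (s, none) (ext _ (update S a x))
      (s₀, none) (ext _ (pushAll (tOut δ fin s x) (update S a []))) := by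
  classical
  induction x generalizing s S with
  | nil =>
    refine Code.Run.single_done ?_
    refine (stepAux_pop_ext _ _ a _ _ _).trans ?_
    rw [update_self, update_idem, stepAux_caseStmt _ _ _ (by simp)]
    exact (stepAux_pushStmt (fin s) _ _ _).trans rfl
  | cons b x ih =>
    have h1 := ih (δ s b).1 (pushAll (δ s b).2 S)
    rw [← pushAll_update_comm _ a (hδ s b), ← pushAll_update_comm _ a (hδ s b),
      ← pushAll_append] at h1
    refine Code.Run.single_step ?_ h1
    refine (stepAux_pop_ext _ _ a _ _ _).trans ?_
    rw [update_self, update_idem, stepAux_caseStmt _ _ _ (by simp)]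
    exact (stepAux_pushStmt (δ s b).2 _ _ _).trans rfl

theorem Mod.Run.trans {τ : Type} [Fintype τ] (a : K) (δ : τ → Bool → τ × List (K × Bool))
    (fin : τ → List (K × Bool)) (s₀ : τ) (hδ : ∀ s b, ∀ p ∈ (δ s b).2, p.1 ≠ a)
    (S S' : K → List Bool)
    (h : ∀ k, S' k = (outOn (tOut δ fin s₀ (S a)) k).reverse ++ update S a [] k) :
    (Mod.trans a δ fin s₀).Run ((S a).length + 1) S S' := by
  have h1 := trans_run_aux a δ fin s₀ hδ (S a) s₀ S
  rw [update_eq_self] at h1
  have : S' = pushAll (tOut δ fin s₀ (S a)) (update S a []) := by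
    funext k; rw [pushAll_apply, h]
  rw [this]
  exact h1

end Transducer

end Pool.Agent.PolyT
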