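import Pool.Agent.Lib.helper72.PTTyped

/-!
Binary natural-number arithmetic and indexing in polynomial time.
-/

set_option autoImplicit false

namespace Pool.Agent.PolyT

open Function N487b59b3 Computability

theorem encodePosNum_eq_bits (n : PosNum) : encodePosNum n = (n : ℕ).bits := by
  induction n with
  | one => simp [encodePosNum]
  | bit1 n ih =>
    rw [encodePosNum, ih, PosNum.cast_bit1, ← two_mul, Nat.bit1_bits]
  | bit0 n ih =>
    rw [encodePosNum, ih, PosNum.cast_bit0, ← two_mul, Nat.bit0_bits _ (PosNum.cast_pos n).ne']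

theorem enc_nat (n : ℕ) : bitEncode n = n.bits := by
  have h : ∀ m : Num, encodeNum m = (m : ℕ).bits := by
    intro m
    cases m with
    | zero => simp [encodeNum]
    | pos p => exact encodePosNum_eq_bits p
  have := h (n : Num)
  rw [Num.to_of_nat] at this
  exact this

theorem length_enc_nat (n : ℕ) : (bitEncode n).length = n.size := by
  rw [enc_nat, Nat.size_eq_bits_len]

theorem lt_two_pow_enc (n : ℕ) : n < 2 ^ (bitEncode n).length := by
  rw [length_enc_nat]; exact Nat.lt_size_self n

theorem length_enc_nat_mono {m n : ℕ} (h : m ≤ n) :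
    (bitEncode m).length ≤ (bitEncode n).length := by
  rw [length_enc_nat, length_enc_nat]; exact Nat.size_le_size h

theorem length_enc_nat_le {n k : ℕ} (h : n < 2 ^ k) : (bitEncode n).length ≤ k := by
  rw [length_enc_nat]; exact Nat.size_le.2 h

theorem length_enc_nat_le_self (n : ℕ) : (bitEncode n).length ≤ n :=
  length_enc_nat_le Nat.lt_two_pow_self

/-- The value of a little-endian list of bits. -/
def ofBits (l : List Bool) : ℕ := l.foldr (fun b n => 2 * n + b.toNat) 0

@[simp] theorem ofBits_nil : ofBits [] = 0 := rfl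
@[simp] theorem ofBits_cons (b : Bool) (l : List Bool) :
    ofBits (b :: l) = 2 * ofBits l + b.toNat := rfl

theorem ofBits_lt (l : List Bool) : ofBits l < 2 ^ l.length := by
  induction l with
  | nil => simp
  | cons b l ih => cases b <;> simp [pow_succ] <;> omega

theorem ofBits_append (l : List Bool) (b : Bool) :
    ofBits (l ++ [b]) = ofBits l + 2 ^ l.length * b.toNat := by
  induction l with
  | nil => simp
  | cons c l ih => simp [ih, pow_succ]; ring

theorem ofBits_bits (n : ℕ) : ofBits n.bits = n := by
  induction n using Nat.binaryRec' with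
  | zero => simp
  | bit b n h ih =>
    rw [Nat.bits_append_bit n b h, ofBits_cons, ih, Nat.bit_val]

namespace Poly

variable {α β γ : Type} [N487b59b3 α] [N487b59b3 β] [N487b59b3 γ]

theorem bit1 {f : α → ℕ} (hf : Poly f) : Poly (fun a => 2 * f a + 1) :=
  (PT.cons true hf).congr (fun a => by beta_reduce; rw [enc_nat, enc_nat, Nat.bit1_bits])

theorem isZero {f : α → ℕ} (hf : Poly f) : Poly (fun a => decide (f a = 0)) :=
  eq hf (const 0)

theorem double {f : α → ℕ} (hf : Poly f) : Poly (fun a => 2 * f a) :=
  (PT.cond hf.isZero (PT.const _ []) (PT.cons false hf)).congr (fun a => by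
    beta_reduce
    by_cases h : f a = 0
    · simp [h, enc_nat]
    · rw [enc_nat, enc_nat, Nat.bit0_bits _ h]; simp [h])

theorem bit {b : α → Bool} {f : α → ℕ} (hb : Poly b) (hf : Poly f) :
    Poly (fun a => 2 * f a + (b a).toNat) :=
  (hb.cond hf.bit1 hf.double).congr (fun a => by cases b a <;> simp)

theorem div2 {f : α → ℕ} (hf : Poly f) : Poly (fun a => f a / 2) :=
  (PT.tail hf).congr (fun a => by
    beta_reduce; rw [enc_nat, enc_nat, ← Nat.div2_bits_eq_tail, Nat.div2_val])

theorem bodd {f : α → ℕ} (hf : Poly f) : Poly (fun a => (f a).bodd) :=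
  (PT.headTest (fun o => o.getD false) hf).congr (fun a => by
    beta_reduce
    rw [enc_nat, Nat.bodd_eq_bits_head]
    cases (f a).bits <;> rfl)

theorem bits {f : α → ℕ} (hf : Poly f) : Poly (fun a => (f a).bits) :=
  bitsOf (PT.congr hf (fun a => enc_nat _))

theorem ofBits {l : α → List Bool} (hl : Poly l) : Poly (fun a => ofBits (l a)) :=
  foldr (f := fun _ (b : Bool) n => 2 * n + b.toNat) (bit id.snd.fst id.snd.snd) hl (const 0)
    hl.bd (fun a n => (length_enc_nat_le (ofBits_lt _)).trans
      (((List.drop_sublist _ _).length_le).trans (length_le_enc _)))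

theorem xor {c d : α → Bool} (hc : Poly c) (hd : Poly d) : Poly (fun a => xor (c a) (d a)) :=
  (hc.cond hd.not hd).congr (fun a => by cases c a <;> simp)

/-- One round of schoolbook addition. -/
def addStep (s : ℕ × ℕ × Bool × List Bool) : ℕ × ℕ × Bool × List Bool :=
  (s.1 / 2, s.2.1 / 2,
    (s.1.bodd && s.2.1.bodd) || (s.2.2.1 && (s.1.bodd || s.2.1.bodd)),
    s.2.2.2 ++ [Bool.xor (Bool.xor s.1.bodd s.2.1.bodd) s.2.2.1])

theorem addStep_iter (x y i : ℕ) : ∃ c l, addStep^[i] (x, y, false, []) = (x / 2 ^ i, y / 2 ^ i, c, l)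
    ∧ l.length = i ∧ x + y = PolyT.ofBits l + 2 ^ i * (x / 2 ^ i + y / 2 ^ i + c.toNat) := by
  induction i with
  | zero => exact ⟨false, [], by simp, rfl, by simp⟩
  | succ i ih =>
    obtain ⟨c, l, h1, h2, h3⟩ := ih
    rw [iterate_succ_apply', h1]
    refine ⟨_, _, by simp only [addStep, pow_succ, Nat.div_div_eq_div_mul]; rfl,
      by simp [h2], ?_⟩
    rw [ofBits_append, h2, h3, pow_succ, ← Nat.div_div_eq_div_mul, ← Nat.div_div_eq_div_mul]
    generalize x / 2 ^ i = u
    generalize y / 2 ^ i = v
    have hu := Nat.bodd_add_div2 u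
    have hv := Nat.bodd_add_div2 v
    rw [Nat.div2_val] at hu hv
    have : u + v + c.toNat = (Bool.xor (Bool.xor u.bodd v.bodd) c).toNat + 2 * (u / 2 + v / 2 +
        ((u.bodd && v.bodd) || (c && (u.bodd || v.bodd))).toNat) := by
      revert hu hv
      cases u.bodd <;> cases v.bodd <;> cases c <;> simp <;> omega
    rw [this]; ring

theorem enc_bools_length (l : List Bool) : (bitEncode l).length = 3 * l.length := by
  induction l with
  | nil => rfl
  | cons b l ih => rw [length_enc_cons, ih]; simp; ring

theorem add {f g : α → ℕ} (hf : Poly f) (hg : Poly g) : Poly (fun a => f a + g a) := by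
  have hs : Poly addStep :=
    id.fst.div2.pair (id.snd.fst.div2.pair
      (((id.fst.bodd.and id.snd.fst.bodd).or
        (id.snd.snd.fst.and (id.fst.bodd.or id.snd.fst.bodd))).pair
      (id.snd.snd.snd.append ((id.fst.bodd.xor id.snd.fst.bodd).xor id.snd.snd.fst).singleton)))
  have hC : PT bitEncode (fun a => true :: (bitEncode (f a) ++ bitEncode (g a))) :=
    (PT.append hf hg).cons true
  have hit := iterate hs hC (hf.pair (hg.pair ((const false).pair (const []))))
    (((((Bd.const 2).mul hf.bd).add ((Bd.const 2).mul hg.bd)).add (Bd.const 5)).add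
      ((Bd.const 3).mul hC.bd)) (fun a i hi => by
      obtain ⟨c, l, h1, h2, -⟩ := addStep_iter (f a) (g a) i
      rw [h1, length_enc_pair, length_enc_pair, length_enc_pair, enc_bools_length]
      have e1 := length_enc_nat_mono (Nat.div_le_self (f a) (2 ^ i))
      have e2 := length_enc_nat_mono (Nat.div_le_self (g a) (2 ^ i))
      simp only [enc_bool, List.length_singleton] at *
      omega)
  refine hit.snd.snd.snd.ofBits.congr (fun a => ?_)
  obtain ⟨c, l, h1, h2, h3⟩ := addStep_iter (f a) (g a)
    (true :: (bitEncode (f a) ++ bitEncode (g a))).length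
  rw [h1]
  have b1 := lt_two_pow_enc (f a)
  have b2 := lt_two_pow_enc (g a)
  simp only [List.length_cons, List.length_append] at h3
  set m := (bitEncode (f a)).length
  set n := (bitEncode (g a)).length
  have c1 : 2 ^ m ≤ 2 ^ (m + n) := Nat.pow_le_pow_right (by norm_num) (by omega)
  have c2 : 2 ^ n ≤ 2 ^ (m + n) := Nat.pow_le_pow_right (by norm_num) (by omega)
  have c3 : f a + g a < 2 ^ (m + n + 1) := by rw [pow_succ]; omega
  rcases Nat.eq_zero_or_pos (f a / 2 ^ (m + n + 1) + g a / 2 ^ (m + n + 1) + c.toNat) with h | h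
  · rw [h] at h3; simp only; omega
  · have := Nat.mul_le_mul_left (2 ^ (m + n + 1)) h
    omega

theorem succ {f : α → ℕ} (hf : Poly f) : Poly (fun a => f a + 1) := hf.add (const 1)

theorem mul {f g : α → ℕ} (hf : Poly f) (hg : Poly g) : Poly (fun a => f a * g a) := by
  have key : ∀ (x : ℕ) (l : List Bool),
      l.foldr (fun b n => 2 * n + bif b then x else 0) 0 = x * PolyT.ofBits l := by
    intro x l
    induction l with
    | nil => simp
    | cons b l ih => rw [List.foldr_cons, ih]; cases b <;> simp <;> ring
  refine (foldr (f := fun a (b : Bool) n => 2 * n + bif b then f a else 0)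
    (id.snd.snd.double.add (id.snd.fst.cond (hf.comp id.fst) (const 0))) hg.bits (const 0)
    (hf.bd.add hg.bd) (fun a n => ?_)).congr (fun a => by rw [key, ofBits_bits])
  rw [key]
  refine length_enc_nat_le ?_
  have b1 := lt_two_pow_enc (f a)
  have b2 := ofBits_lt ((g a).bits.drop n)
  have b3 : 2 ^ ((g a).bits.drop n).length ≤ 2 ^ (bitEncode (g a)).length :=
    Nat.pow_le_pow_right (by norm_num) (by rw [enc_nat]; simp)
  rw [pow_add]
  exact Nat.mul_lt_mul'' b1 (b2.trans_le b3)

/-- One round of schoolbook subtraction. -/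
def subStep (s : ℕ × ℕ × Bool × List Bool) : ℕ × ℕ × Bool × List Bool :=
  (s.1 / 2, s.2.1 / 2,
    (!s.1.bodd && (s.2.1.bodd || s.2.2.1)) || (s.2.1.bodd && s.2.2.1),
    s.2.2.2 ++ [Bool.xor (Bool.xor s.1.bodd s.2.1.bodd) s.2.2.1])

theorem subStep_iter (x y i : ℕ) : ∃ c l, subStep^[i] (x, y, false, []) = (x / 2 ^ i, y / 2 ^ i, c, l)
    ∧ l.length = i ∧
      x + 2 ^ i * (y / 2 ^ i + c.toNat) = y + PolyT.ofBits l + 2 ^ i * (x / 2 ^ i) := by
  induction i with
  | zero => exact ⟨false, [], by simp, rfl, by simp [add_comm]⟩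
  | succ i ih =>
    obtain ⟨c, l, h1, h2, h3⟩ := ih
    rw [iterate_succ_apply', h1]
    refine ⟨_, _, by simp only [subStep, pow_succ, Nat.div_div_eq_div_mul]; rfl,
      by simp [h2], ?_⟩
    rw [ofBits_append, h2, pow_succ, ← Nat.div_div_eq_div_mul, ← Nat.div_div_eq_div_mul]
    revert h3
    generalize x / 2 ^ i = u
    generalize y / 2 ^ i = v
    intro h3
    have hu := Nat.bodd_add_div2 u
    have hv := Nat.bodd_add_div2 v
    rw [Nat.div2_val] at hu hv
    have : u + 2 * (v / 2 + ((!u.bodd && (v.bodd || c)) || (v.bodd && c)).toNat) =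
        v + c.toNat + (Bool.xor (Bool.xor u.bodd v.bodd) c).toNat + 2 * (u / 2) := by
      revert hu hv
      cases u.bodd <;> cases v.bodd <;> cases c <;> simp <;> omega
    have h4 := congrArg (fun z => 2 ^ i * z) this
    simp only [mul_add] at h3 h4 ⊢
    nlinarith

theorem subAux {f g : α → ℕ} (hf : Poly f) (hg : Poly g) :
    ∃ (c : α → Bool) (d : α → ℕ), Poly c ∧ Poly d ∧
      ∀ a, (c a = decide (f a < g a)) ∧ (g a ≤ f a → d a = f a - g a) := by
  have hs : Poly subStep :=
    id.fst.div2.pair (id.snd.fst.div2.pair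
      (((id.fst.bodd.not.and (id.snd.fst.bodd.or id.snd.snd.fst)).or
        (id.snd.fst.bodd.and id.snd.snd.fst)).pair
      (id.snd.snd.snd.append ((id.fst.bodd.xor id.snd.fst.bodd).xor id.snd.snd.fst).singleton)))
  have hC : PT bitEncode (fun a => bitEncode (f a) ++ bitEncode (g a)) := PT.append hf hg
  have hit := iterate hs hC (hf.pair (hg.pair ((const false).pair (const []))))
    (((((Bd.const 2).mul hf.bd).add ((Bd.const 2).mul hg.bd)).add (Bd.const 5)).add
      ((Bd.const 3).mul hC.bd)) (fun a i hi => by
      obtain ⟨c, l, h1, h2, -⟩ := subStep_iter (f a) (g a) i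
      rw [h1, length_enc_pair, length_enc_pair, length_enc_pair, enc_bools_length]
      have e1 := length_enc_nat_mono (Nat.div_le_self (f a) (2 ^ i))
      have e2 := length_enc_nat_mono (Nat.div_le_self (g a) (2 ^ i))
      simp only [enc_bool, List.length_singleton] at *
      omega)
  refine ⟨_, _, hit.snd.snd.fst, hit.snd.snd.snd.ofBits, fun a => ?_⟩
  obtain ⟨c, l, h1, h2, h3⟩ := subStep_iter (f a) (g a)
    (bitEncode (f a) ++ bitEncode (g a)).length
  rw [h1]
  have b1 := lt_two_pow_enc (f a)
  have b2 := lt_two_pow_enc (g a)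
  have b3 := ofBits_lt l
  simp only [List.length_append] at h2 h3
  set m := (bitEncode (f a)).length
  set n := (bitEncode (g a)).length
  have c1 : 2 ^ m ≤ 2 ^ (m + n) := Nat.pow_le_pow_right (by norm_num) (by omega)
  have c2 : 2 ^ n ≤ 2 ^ (m + n) := Nat.pow_le_pow_right (by norm_num) (by omega)
  rw [Nat.div_eq_of_lt (b1.trans_le c1), Nat.div_eq_of_lt (b2.trans_le c2)] at h3
  rw [h2] at b3
  cases c <;> simp at h3 ⊢ <;> omega

theorem lt {f g : α → ℕ} (hf : Poly f) (hg : Poly g) : Poly (fun a => decide (f a < g a)) := by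
  obtain ⟨c, d, hc, -, h⟩ := subAux hf hg
  exact hc.congr (fun a => (h a).1)

theorem le {f g : α → ℕ} (hf : Poly f) (hg : Poly g) : Poly (fun a => decide (f a ≤ g a)) :=
  (lt hg hf).not.congr (fun a => by by_cases h : g a < f a <;> simp [h] <;> omega)

theorem sub {f g : α → ℕ} (hf : Poly f) (hg : Poly g) : Poly (fun a => f a - g a) := by
  obtain ⟨c, d, -, hd, h⟩ := subAux hf hg
  refine (ite (le hg hf) hd (const 0)).congr (fun a => ?_)
  by_cases h1 : g a ≤ f a
  · rw [if_pos h1, (h a).2 h1]
  · rw [if_neg h1]; omega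

theorem length {l : α → List β} (hl : Poly l) : Poly (fun a => (l a).length) := by
  have key : ∀ (r : List β) (n : ℕ), r.foldl (fun n _ => n + 1) n = n + r.length := by
    intro r
    induction r with
    | nil => intro n; rfl
    | cons x r ih => intro n; rw [List.foldl_cons, ih, List.length_cons]; omega
  refine (foldl (f := fun _ (n : ℕ) _ => n + 1) id.snd.fst.succ hl (const 0) hl.bd
    (fun a n => ?_)).congr (fun a => by rw [key, Nat.zero_add])
  rw [key, Nat.zero_add]
  exact (length_enc_nat_le_self _).trans ((List.length_take_le' _ _).trans (length_le_enc _))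

/-- The length of a raw string, in binary. -/
theorem lengthRaw {F : α → List Bool} (hF : PT bitEncode F) : Poly (fun a => (F a).length) :=
  (bitsOf hF).length

theorem enc_range_le (n : ℕ) : (bitEncode (List.range n)).length ≤ n * (2 * n + 1) := by
  rw [enc_list, List.length_flatMap]
  refine (sum_map_le _ _ (2 * n + 1) (fun x hx => ?_)).trans (by simp)
  have := length_enc_nat_le_self x
  have := List.mem_range.1 hx
  simp only [length_delimit]
  omega

/-- The list of positions of a list. -/
theorem rangeLength {l : α → List β} (hl : Poly l) :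
    Poly (fun a => List.range (l a).length) := by
  have key : ∀ (r : List β) (n : ℕ),
      r.foldl (fun (c : List ℕ) _ => c ++ [c.length]) (List.range n) =
        List.range (n + r.length) := by
    intro r
    induction r with
    | nil => intro n; rfl
    | cons x r ih =>
      intro n
      rw [List.foldl_cons, List.length_range, ← List.range_succ, ih, List.length_cons]
      congr 1; omega
  refine (foldl (f := fun _ (c : List ℕ) _ => c ++ [c.length])
    (id.snd.fst.append id.snd.fst.length.singleton) hl (const (List.range 0))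
    (hl.bd.mul (((Bd.const 2).mul hl.bd).add (Bd.const 1))) (fun a n => ?_)).congr
    (fun a => by rw [key, Nat.zero_add])
  rw [key, Nat.zero_add]
  have : ((l a).take n).length ≤ (bitEncode (l a)).length :=
    (List.length_take_le' _ _).trans (length_le_enc _)
  exact (enc_range_le _).trans (Nat.mul_le_mul this (by omega))

/-- `List.range n` when `n` is polynomially bounded by way of a string at least as long. -/
theorem range {n : α → ℕ} (hn : Poly n) {F : α → List Bool} (hF : PT bitEncode F)
    (h : ∀ a, n a ≤ (F a).length) : Poly (fun a => List.range (n a)) := by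
  refine (filter (c := fun a i => decide (i < n a)) (lt id.snd (hn.comp id.fst))
    (bitsOf hF).rangeLength).congr (fun a => ?_)
  obtain ⟨k, hk⟩ := Nat.exists_eq_add_of_le (h a)
  rw [hk, List.range_add, List.filter_append, List.filter_eq_self.2, List.filter_eq_nil_iff.2]
  · simp
  · intro i hi; simp only [List.mem_map] at hi; obtain ⟨j, -, rfl⟩ := hi; simp
  · intro i hi; simpa using hi

theorem drop {l : α → List β} {n : α → ℕ} (hl : Poly l) (hn : Poly n) :
    Poly (fun a => (l a).drop (n a)) := by
  have key : ∀ (r : List β) (k : ℕ) (c : List β),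
      r.foldl (fun (s : ℕ × List β) _ => if s.1 = 0 then s else (s.1 - 1, s.2.tail)) (k, c) =
        (k - r.length, c.drop (min k r.length)) := by
    intro r
    induction r with
    | nil => intro k c; simp
    | cons x r ih =>
      intro k c
      rw [List.foldl_cons]
      cases k with
      | zero => simp [ih]
      | succ k => simp [ih, Nat.succ_min_succ]
  have h := foldl (f := fun _ (s : ℕ × List β) _ => if s.1 = 0 then s else (s.1 - 1, s.2.tail))
    (ite id.snd.fst.fst.isZero id.snd.fst
      ((id.snd.fst.fst.sub (const 1)).pair id.snd.fst.snd.tail)) hl (hn.pair hl)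
    ((((Bd.const 2).mul hn.bd).add (Bd.const 1)).add hl.bd) (fun a k => by
      rw [key, length_enc_pair]
      have h1 := length_enc_nat_mono (Nat.sub_le (n a) ((l a).take k).length)
      have h2 := enc_sublist_le (List.drop_sublist (min (n a) ((l a).take k).length) (l a))
      simp only at h1 h2 ⊢
      omega)
  refine h.snd.congr (fun a => ?_)
  rw [key]
  rcases le_total (n a) (l a).length with h1 | h1
  · rw [min_eq_left h1]
  · rw [min_eq_right h1, List.drop_length, List.drop_of_length_le h1]

theorem getD {l : α → List β} {n : α → ℕ} {d : α → β} (hl : Poly l) (hn : Poly n) (hd : Poly d) :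
    Poly (fun a => (l a).getD (n a) (d a)) :=
  ((hl.drop hn).headD hd).congr (fun a => by
    rw [List.headD_eq_head?_getD, List.head?_drop, List.getD_eq_getElem?_getD])

theorem take {l : α → List β} {n : α → ℕ} (hl : Poly l) (hn : Poly n) :
    Poly (fun a => (l a).take (n a)) :=
  (hl.reverse.drop (hl.length.sub hn)).reverse.congr (fun a => by
    rw [List.drop_reverse, List.reverse_reverse]
    rcases le_total (n a) (l a).length with h1 | h1
    · rw [Nat.sub_sub_self h1]
    · rw [Nat.sub_eq_zero_of_le h1, Nat.sub_zero, List.take_length, List.take_of_length_le h1])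

theorem sum {l : α → List ℕ} (hl : Poly l) : Poly (fun a => (l a).sum) := by
  have key : ∀ r : List ℕ, r.sum < 2 ^ (bitEncode r).length := by
    intro r
    induction r with
    | nil => simp
    | cons x r ih =>
      rw [List.sum_cons, length_enc_cons]
      have b1 := lt_two_pow_enc x
      set m := (bitEncode x).length
      set n := (bitEncode r).length
      have c1 : 2 ^ m ≤ 2 ^ (2 * m + n) := Nat.pow_le_pow_right (by norm_num) (by omega)
      have c2 : 2 ^ n ≤ 2 ^ (2 * m + n) := Nat.pow_le_pow_right (by norm_num) (by omega)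
      rw [show 2 * m + 1 + n = 2 * m + n + 1 by ring, pow_succ]
      omega
  exact foldr (f := fun _ (x n : ℕ) => x + n) (id.snd.fst.add id.snd.snd) hl (const 0) hl.bd
    (fun a n => (length_enc_nat_le (key _)).trans (enc_sublist_le (List.drop_sublist _ _)))

end Poly

end Pool.Agent.PolyT
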