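import Pool.Agent.Lib.helper72.PTClosure

/-!
Typed interface: `Poly f` is the Prelude's `IsPolyTime f`; closure under pairs, conditionals,
list operations, folds and equality tests.
-/

set_option autoImplicit false

namespace Pool.Agent.PolyT

open Function N487b59b3

namespace PT

variable {α : Type} {e F G : α → List Bool}

theorem const (e : α → List Bool) (w : List Bool) : PT e (fun _ => w) := by
  refine ((PT.refl e).transducer (fun (_ : Unit) _ => ((), [])) (fun _ => w) ()).congr (fun a => ?_)
  induction e a with
  | nil => rfl
  | cons b x ih => simpa [tOut] using ih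

/-- Replace each bit `b` by the string `g b`. -/
theorem bitMap (g : Bool → List Bool) (h : PT e F) : PT e (fun a => (F a).flatMap g) := by
  refine (h.transducer (fun (_ : Unit) b => ((), g b)) (fun _ => []) ()).congr (fun a => ?_)
  induction F a with
  | nil => rfl
  | cons b x ih => simp [tOut, ih]

theorem cons (b : Bool) (h : PT e F) : PT e (fun a => b :: F a) :=
  (PT.const e [b]).append h

theorem delimit_eq (x : List Bool) : delimit x = x.flatMap (fun b => [true, b]) ++ [false] := by
  induction x with
  | nil => rfl
  | cons b x ih => simp [delimit, ih]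

theorem delimit (h : PT e F) : PT e (fun a => delimit (F a)) :=
  ((h.bitMap (fun b => [true, b])).append (PT.const e [false])).congr
    (fun a => (delimit_eq (F a)).symm)

theorem pair (h : PT e F) (h' : PT e G) : PT e (fun a => N487b59b3.delimit (F a) ++ G a) :=
  h.delimit.append h'

end PT

/-- Transition that keeps the first block (`s = true`) or what follows it (`s = false`). -/
def selStep (s : Bool) : Fin 3 → Bool → Fin 3 × List Bool := fun q b =>
  if q = 0 then (if b then 1 else 2, [])
  else if q = 1 then (0, if s then [b] else [])
  else (2, if s then [] else [b])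

/-- The first block of a string (`s = true`) or what follows it (`s = false`). -/
def sel (s : Bool) (x : List Bool) : List Bool := tOut (selStep s) (fun _ => []) 0 x

theorem sel_two (s : Bool) (y : List Bool) :
    tOut (selStep s) (fun _ => []) 2 y = if s then [] else y := by
  induction y with
  | nil => cases s <;> rfl
  | cons b y ih => cases s <;> simp_all [tOut, selStep]

theorem sel_pair (s : Bool) (x y : List Bool) :
    sel s (delimit x ++ y) = if s then x else y := by
  induction x with
  | nil => simp [sel, delimit, tOut, selStep, sel_two]
  | cons b x ih =>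
    simp only [sel] at ih
    cases s <;> simp_all [sel, delimit, tOut, selStep]

namespace PT

variable {α : Type} {e F G : α → List Bool}

theorem sel (s : Bool) (h : PT e F) : PT e (fun a => sel s (F a)) :=
  h.transducer _ _ _

theorem cond {c : α → Bool} (hc : PT e (fun a => [c a])) (h : PT e F) (h' : PT e G) :
    PT e (fun a => bif c a then F a else G a) := by
  refine ((hc.append (h.pair h')).transducer
    (fun (q : Option (Bool × Fin 3)) b => match q with
      | none => (some (b, 0), [])
      | some (s, q) => (some (s, (selStep s q b).1), (selStep s q b).2))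
    (fun _ => []) none).congr (fun a => ?_)
  have key : ∀ (s : Bool) (x : List Bool) (q : Fin 3),
      tOut (fun (q : Option (Bool × Fin 3)) b => match q with
        | none => (some (b, 0), [])
        | some (s, q) => (some (s, (selStep s q b).1), (selStep s q b).2))
        (fun _ => []) (some (s, q)) x = tOut (selStep s) (fun _ => []) q x := by
    intro s x
    induction x with
    | nil => intro q; rfl
    | cons b x ih => intro q; simp only [tOut, ih]
  have := sel_pair (c a) (F a) (G a)
  simp only [List.singleton_append, tOut, List.nil_append, key]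
  rw [show tOut (selStep (c a)) (fun _ => []) 0 (N487b59b3.delimit (F a) ++ G a) =
    PolyT.sel (c a) (N487b59b3.delimit (F a) ++ G a) from rfl, this]
  cases c a <;> rfl

theorem tail (h : PT e F) : PT e (fun a => (F a).tail) := by
  refine (h.transducer (fun (s : Bool) b => (true, if s then [b] else [])) (fun _ => [])
    false).congr (fun a => ?_)
  have key : ∀ x : List Bool,
      tOut (fun (s : Bool) b => (true, if s then [b] else [])) (fun _ => []) true x = x := by
    intro x
    induction x with
    | nil => rfl
    | cons b x ih => simp [tOut, ih]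
  cases F a with
  | nil => rfl
  | cons b x => simp [tOut, key]

/-- A bit that depends only on the first bit of the string, if any. -/
theorem headTest (g : Option Bool → Bool) (h : PT e F) : PT e (fun a => [g (F a).head?]) := by
  refine (h.transducer (fun (s : Option Bool) b => (some (s.getD b), ([] : List Bool)))
    (fun s => [g s]) none).congr (fun a => ?_)
  have key : ∀ (x : List Bool) (c : Bool),
      tOut (fun (s : Option Bool) b => (some (s.getD b), ([] : List Bool))) (fun s => [g s])
        (some c) x = [g (some c)] := by
    intro x c
    induction x with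
    | nil => rfl
    | cons b x ih => simp [tOut, ih]
  cases F a with
  | nil => rfl
  | cons b x => simp [tOut, key]

end PT

/-- Bit strings encoded by themselves. -/
structure Raw where
  val : List Bool

instance : N487b59b3 Raw where
  encode := Raw.val
  decode l := some ⟨l⟩
  decode_encode _ := rfl

instance : N487b59b3 Unit where
  encode _ := []
  decode _ := some ()
  decode_encode _ := rfl

@[simp] theorem enc_raw (x : List Bool) : bitEncode (Raw.mk x) = x := rfl
theorem enc_raw' (x : Raw) : bitEncode x = x.val := rfl
@[simp] theorem enc_bool (b : Bool) : bitEncode b = [b] := rfl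
theorem enc_pair {α β : Type} [N487b59b3 α] [N487b59b3 β] (p : α × β) :
    bitEncode p = delimit (bitEncode p.1) ++ bitEncode p.2 := rfl
@[simp] theorem enc_nil {α : Type} [N487b59b3 α] : bitEncode ([] : List α) = [] := rfl
theorem enc_cons {α : Type} [N487b59b3 α] (x : α) (l : List α) :
    bitEncode (x :: l) = delimit (bitEncode x) ++ bitEncode l := rfl
theorem enc_list {α : Type} [N487b59b3 α] (l : List α) :
    bitEncode l = l.flatMap (fun x => delimit (bitEncode x)) := by
  induction l with
  | nil => rfl
  | cons x l ih => rw [enc_cons, ih, List.flatMap_cons]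
theorem enc_append {α : Type} [N487b59b3 α] (l l' : List α) :
    bitEncode (l ++ l') = bitEncode l ++ bitEncode l' := by
  simp [enc_list]

theorem length_enc_pair {α β : Type} [N487b59b3 α] [N487b59b3 β] (p : α × β) :
    (bitEncode p).length = 2 * (bitEncode p.1).length + 1 + (bitEncode p.2).length := by
  rw [enc_pair, List.length_append, length_delimit]

theorem length_enc_cons {α : Type} [N487b59b3 α] (x : α) (l : List α) :
    (bitEncode (x :: l)).length = 2 * (bitEncode x).length + 1 + (bitEncode l).length := by
  rw [enc_cons, List.length_append, length_delimit]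

theorem length_le_enc {α : Type} [N487b59b3 α] (l : List α) :
    l.length ≤ (bitEncode l).length := by
  induction l with
  | nil => simp
  | cons x l ih => rw [length_enc_cons, List.length_cons]; omega

theorem enc_mem_le {α : Type} [N487b59b3 α] {l : List α} {x : α} (h : x ∈ l) :
    (bitEncode x).length ≤ (bitEncode l).length := by
  induction l with
  | nil => cases h
  | cons y l ih =>
    rw [length_enc_cons]
    rcases List.mem_cons.1 h with rfl | h
    · omega
    · have := ih h; omega

theorem enc_sublist_le {α : Type} [N487b59b3 α] {l l' : List α} (h : l.Sublist l') :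
    (bitEncode l).length ≤ (bitEncode l').length := by
  induction h with
  | slnil => exact le_rfl
  | cons a _ ih => rw [length_enc_cons]; omega
  | cons_cons a _ ih => rw [length_enc_cons, length_enc_cons]; omega

theorem length_enc_reverse {α : Type} [N487b59b3 α] (l : List α) :
    (bitEncode l.reverse).length = (bitEncode l).length := by
  induction l with
  | nil => rfl
  | cons x l ih =>
    rw [List.reverse_cons, enc_append, List.length_append, ih, length_enc_cons, length_enc_cons]
    simp; omega

/-- Polynomial-time functions between encoded types. -/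
def Poly {α β : Type} [N487b59b3 α] [N487b59b3 β] (f : α → β) : Prop :=
  PT bitEncode (fun a => bitEncode (f a))

theorem poly_iff {α β : Type} [N487b59b3 α] [N487b59b3 β] (f : α → β) :
    Poly f ↔ N68a2faeb.IsPolyTime f :=
  ⟨fun ⟨T⟩ => ⟨⟨T.toTM2ComputableAux, T.time, T.outputsFun⟩⟩,
    fun ⟨T⟩ => ⟨⟨T.toTM2ComputableAux, T.time, T.outputsFun⟩⟩⟩

namespace Poly

variable {α β γ δ : Type} [N487b59b3 α] [N487b59b3 β] [N487b59b3 γ] [N487b59b3 δ]

theorem congr {f g : α → β} (h : Poly f) (hg : ∀ a, f a = g a) : Poly g := by
  rw [← funext hg]; exact h

theorem id : Poly (fun a : α => a) := PT.refl _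

theorem const (b : β) : Poly (fun _ : α => b) := PT.const _ _

theorem comp {g : β → γ} {f : α → β} (hg : Poly g) (hf : Poly f) : Poly (fun a => g (f a)) :=
  PT.trans hf (PT.reindex hg f)

theorem bd {f : α → β} (hf : Poly f) : Bd bitEncode (fun a => (bitEncode (f a)).length) :=
  PT.bd hf

theorem raw {F : α → List Bool} : Poly (fun a => Raw.mk (F a)) ↔ PT bitEncode F := Iff.rfl

theorem enc {f : α → β} (hf : Poly f) : Poly (fun a => Raw.mk (bitEncode (f a))) := hf

theorem pair {f : α → β} {g : α → γ} (hf : Poly f) (hg : Poly g) : Poly (fun a => (f a, g a)) :=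
  PT.pair hf hg

theorem fst {f : α → β × γ} (hf : Poly f) : Poly (fun a => (f a).1) :=
  (PT.sel true hf).congr (fun a => by rw [enc_pair, sel_pair]; rfl)

theorem snd {f : α → β × γ} (hf : Poly f) : Poly (fun a => (f a).2) :=
  (PT.sel false hf).congr (fun a => by rw [enc_pair, sel_pair]; rfl)

theorem cond {c : α → Bool} {f g : α → β} (hc : Poly c) (hf : Poly f) (hg : Poly g) :
    Poly (fun a => bif c a then f a else g a) :=
  (PT.cond hc hf hg).congr (fun a => by beta_reduce; cases c a <;> rfl)

theorem ite {c : α → Prop} [DecidablePred c] {f g : α → β} (hc : Poly (fun a => decide (c a)))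
    (hf : Poly f) (hg : Poly g) : Poly (fun a => if c a then f a else g a) :=
  (hc.cond hf hg).congr (fun a => by by_cases h : c a <;> simp [h])

theorem not {c : α → Bool} (hc : Poly c) : Poly (fun a => !c a) :=
  (hc.cond (const false) (const true)).congr (fun a => by cases c a <;> rfl)

theorem and {c d : α → Bool} (hc : Poly c) (hd : Poly d) : Poly (fun a => c a && d a) :=
  (hc.cond hd (const false)).congr (fun a => by cases c a <;> rfl)

theorem or {c d : α → Bool} (hc : Poly c) (hd : Poly d) : Poly (fun a => c a || d a) :=
  (hc.cond (const true) hd).congr (fun a => by cases c a <;> rfl)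

theorem cons {f : α → β} {l : α → List β} (hf : Poly f) (hl : Poly l) :
    Poly (fun a => f a :: l a) := PT.pair hf hl

theorem singleton {f : α → β} (hf : Poly f) : Poly (fun a => [f a]) := hf.cons (const [])

theorem append {l l' : α → List β} (hl : Poly l) (hl' : Poly l') :
    Poly (fun a => l a ++ l' a) :=
  (PT.append hl hl').congr (fun _ => (enc_append _ _).symm)

theorem tail {l : α → List β} (hl : Poly l) : Poly (fun a => (l a).tail) :=
  (PT.sel false hl).congr (fun a => by
    beta_reduce
    cases l a with
    | nil => rfl
    | cons x r => rw [enc_cons, sel_pair]; rfl)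

theorem isEmpty {l : α → List β} (hl : Poly l) : Poly (fun a => (l a).isEmpty) :=
  (PT.headTest Option.isNone hl).congr (fun a => by
    beta_reduce
    cases l a with
    | nil => rfl
    | cons x r =>
      rw [enc_cons]
      cases bitEncode x <;> rfl)

theorem headD {l : α → List β} {d : α → β} (hl : Poly l) (hd : Poly d) :
    Poly (fun a => (l a).headD (d a)) :=
  (PT.cond hl.isEmpty hd (PT.sel true hl)).congr (fun a => by
    beta_reduce
    cases l a with
    | nil => rfl
    | cons x r => rw [enc_cons, sel_pair]; rfl)

/-- Bounded iteration: the number of rounds is the length of the encoding of `c a`. -/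
theorem iterate {h : β → β} (hh : Poly h) {C : α → List Bool} (hC : PT bitEncode C)
    {s : α → β} (hs : Poly s) {t : α → ℕ} (ht : Bd bitEncode t)
    (hb : ∀ a i, i ≤ (C a).length → (bitEncode (h^[i] (s a))).length ≤ t a) :
    Poly (fun a => h^[(C a).length] (s a)) :=
  PT.iterate hh hC hs ht hb

/-- Left fold with polynomially bounded accumulators. -/
theorem foldl {f : α → γ → β → γ} (hf : Poly (fun p : α × γ × β => f p.1 p.2.1 p.2.2))
    {l : α → List β} (hl : Poly l) {i : α → γ} (hi : Poly i) {t : α → ℕ} (ht : Bd bitEncode t)
    (hb : ∀ a n, (bitEncode (((l a).take n).foldl (f a) (i a))).length ≤ t a) :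
    Poly (fun a => (l a).foldl (f a) (i a)) := by
  rcases isEmpty_or_nonempty β with hβ | ⟨⟨b₀⟩⟩
  · refine hi.congr (fun a => ?_)
    cases l a with
    | nil => rfl
    | cons x r => exact hβ.elim x
  let h : α × γ × List β → α × γ × List β := fun p =>
    (p.1, bif p.2.2.isEmpty then p.2.1 else f p.1 p.2.1 (p.2.2.headD b₀), p.2.2.tail)
  have hh : Poly h :=
    id.fst.pair ((id.snd.snd.isEmpty.cond id.snd.fst
      (hf.comp (id.fst.pair (id.snd.fst.pair (id.snd.snd.headD (const b₀)))))).pair
        id.snd.snd.tail)
  have key : ∀ (n : ℕ) (a : α) (c : γ) (r : List β),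
      h^[n] (a, c, r) = (a, (r.take n).foldl (f a) c, r.drop n) := by
    intro n
    induction n with
    | zero => intro a c r; rfl
    | succ n ih =>
      intro a c r
      rw [iterate_succ_apply]
      cases r with
      | nil => simpa [h] using ih a c []
      | cons x r => simpa [h] using ih a (f a c x) r
  have hit := iterate hh (C := fun a => bitEncode (l a)) hl (id.pair (hi.pair hl))
    (((((Bd.const 2).mul Bd.len).add (Bd.const 1)).add
      ((((Bd.const 2).mul ht).add (Bd.const 1)).add hl.bd))) (fun a n _ => by
      rw [key, length_enc_pair, length_enc_pair]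
      have h1 := hb a n
      have h2 := enc_sublist_le (List.drop_sublist n (l a))
      simp only at h1 h2 ⊢
      omega)
  refine hit.snd.fst.congr (fun a => ?_)
  rw [key, List.take_of_length_le (length_le_enc _)]

theorem sum_map_le {ι : Type} (l : List ι) (g : ι → ℕ) (B : ℕ) (h : ∀ x ∈ l, g x ≤ B) :
    (l.map g).sum ≤ l.length * B := by
  induction l with
  | nil => simp
  | cons x l ih =>
    have h1 := h x (by simp)
    have h2 := ih (fun y hy => h y (by simp [hy]))
    simp only [List.map_cons, List.sum_cons, List.length_cons, Nat.succ_mul]
    omega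

/-- Concatenation of the strings `F a x` over the elements `x` of a list. -/
theorem flatRaw {F : α → β → List Bool} (hF : PT bitEncode (fun p : α × β => F p.1 p.2))
    {l : α → List β} (hl : Poly l) : PT bitEncode (fun a => (l a).flatMap (F a)) := by
  obtain ⟨p, hp⟩ := hF.bd
  have key : ∀ (a : α) (r : List β) (c : List Bool),
      r.foldl (fun (c : Raw) x => Raw.mk (c.val ++ F a x)) ⟨c⟩ = ⟨c ++ r.flatMap (F a)⟩ := by
    intro a r
    induction r with
    | nil => intro c; simp
    | cons x r ih => intro c; simp [ih]
  have h1 : Poly (fun q : α × Raw × β => Raw.mk (q.2.1.val ++ F q.1 q.2.2)) :=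
    PT.append (id.snd.fst : Poly (fun q : α × Raw × β => q.2.1))
      (PT.trans (id.fst.pair id.snd.snd : Poly (fun q : α × Raw × β => (q.1, q.2.2)))
        (hF.reindex (fun q : α × Raw × β => (q.1, q.2.2))))
  have h2 := foldl (f := fun a (c : Raw) x => Raw.mk (c.val ++ F a x)) h1 hl
    (const (Raw.mk []))
    (hl.bd.mul (((((Bd.const 2).mul Bd.len).add (Bd.const 1)).add hl.bd).eval p))
    (fun a n => by
      rw [key, enc_raw, List.nil_append, List.length_flatMap]
      refine (sum_map_le _ _ (p.eval (2 * (bitEncode a).length + 1 + (bitEncode (l a)).length))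
        (fun x hx => ?_)).trans (Nat.mul_le_mul_right _ ?_)
      · refine (hp (a, x)).trans (eval_mono p ?_)
        rw [length_enc_pair]
        have := enc_mem_le (List.mem_of_mem_take hx)
        simp only
        omega
      · exact (List.length_take_le' _ _).trans (length_le_enc _))
  exact PT.congr h2 (fun a => by beta_reduce; rw [key]; rfl)

theorem flatMap {g : α → β → List γ} (hg : Poly (fun p : α × β => g p.1 p.2))
    {l : α → List β} (hl : Poly l) : Poly (fun a => (l a).flatMap (g a)) :=
  (flatRaw (F := fun a x => bitEncode (g a x)) hg hl).congr (fun a => by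
    beta_reduce
    induction l a with
    | nil => rfl
    | cons x r ih => rw [List.flatMap_cons, List.flatMap_cons, enc_append, ih])

theorem map {g : α → β → γ} (hg : Poly (fun p : α × β => g p.1 p.2))
    {l : α → List β} (hl : Poly l) : Poly (fun a => (l a).map (g a)) :=
  (flatMap (g := fun a x => [g a x]) hg.singleton hl).congr (fun a => by
    rw [List.map_eq_flatMap])

theorem filter {c : α → β → Bool} (hc : Poly (fun p : α × β => c p.1 p.2))
    {l : α → List β} (hl : Poly l) : Poly (fun a => (l a).filter (c a)) :=
  (flatMap (g := fun a x => bif c a x then [x] else []) (hc.cond id.snd.singleton (const []))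
    hl).congr (fun a => by
    induction l a with
    | nil => rfl
    | cons x r ih => rw [List.flatMap_cons, ih, List.filter_cons]; cases c a x <;> simp)

theorem any {c : α → β → Bool} (hc : Poly (fun p : α × β => c p.1 p.2))
    {l : α → List β} (hl : Poly l) : Poly (fun a => (l a).any (c a)) :=
  (filter hc hl).isEmpty.not.congr (fun a => by
    induction l a with
    | nil => rfl
    | cons x r ih => rw [List.filter_cons, List.any_cons, ← ih]; cases c a x <;> simp)

theorem all {c : α → β → Bool} (hc : Poly (fun p : α × β => c p.1 p.2))
    {l : α → List β} (hl : Poly l) : Poly (fun a => (l a).all (c a)) :=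
  (any (c := fun a x => !c a x) hc.not hl).not.congr (fun a => by
    rw [List.all_eq_not_any_not])

/-- A raw string, seen as an encoded list of bits. -/
theorem bitsOf {F : α → List Bool} (hF : PT bitEncode F) : Poly F :=
  (hF.bitMap (fun b => [true, b, false])).congr (fun a => by rw [enc_list]; rfl)

/-- An encoded list of bits, seen as a raw string. -/
theorem toRaw {F : α → List Bool} (hF : Poly F) : PT bitEncode F :=
  (flatRaw (F := fun _ (b : Bool) => [b]) (id.snd : Poly (fun p : α × Bool => p.2)) hF).congr
    (fun a => by simp)

theorem eqRaw {F G : α → List Bool} (hF : PT bitEncode F) (hG : PT bitEncode G) :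
    Poly (fun a => decide (F a = G a)) := by
  have key : ∀ (x y : List Bool) (c : Bool),
      x.foldl (fun (s : Bool × Raw) b => (s.1 && decide (s.2.val.head? = some b), ⟨s.2.val.tail⟩))
        (c, ⟨y⟩) = (c && decide (y.take x.length = x), ⟨y.drop x.length⟩) := by
    intro x
    induction x with
    | nil => intro y c; simp
    | cons b x ih =>
      intro y c
      rw [List.foldl_cons, ih]
      cases y with
      | nil => simp
      | cons d y => cases c <;> cases b <;> cases d <;> simp
  have hr : Poly (fun q : α × (Bool × Raw) × Bool => q.2.1.2) := id.snd.fst.snd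
  have ht : Poly (fun q : α × (Bool × Raw) × Bool => decide (q.2.1.2.val.head? = some true)) :=
    PT.headTest (fun o => decide (o = some true)) hr
  have hf : Poly (fun q : α × (Bool × Raw) × Bool => decide (q.2.1.2.val.head? = some false)) :=
    PT.headTest (fun o => decide (o = some false)) hr
  have h0 : Poly (fun q : α × (Bool × Raw) × Bool => decide (q.2.1.2.val.head? = some q.2.2)) :=
    (cond id.snd.snd ht hf).congr (fun q => by cases q.2.2 <;> rfl)
  have h1 := foldl (f := fun _ (s : Bool × Raw) b =>
      (s.1 && decide (s.2.val.head? = some b), (⟨s.2.val.tail⟩ : Raw)))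
    ((id.snd.fst.fst.and h0).pair (PT.tail hr)) (bitsOf hF)
    ((const true).pair (raw.2 hG)) ((Bd.const 3).add hG.bd) (fun a n => by
      rw [key, length_enc_pair]
      simp)
  have h2 : Poly (fun a => ((G a).drop (F a).length).head?.isNone) :=
    (PT.headTest Option.isNone h1.snd).congr (fun a => by beta_reduce; rw [key]; rfl)
  refine (h1.fst.and h2).congr (fun a => ?_)
  rw [key]
  by_cases h : F a = G a
  · simp [h]
  · simp only [Bool.true_and, h, decide_false, Bool.and_eq_false_imp, decide_eq_true_eq]
    intro h1
    cases h2 : List.drop (F a).length (G a) with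
    | nil =>
      exfalso; apply h
      rw [← List.take_append_drop (F a).length (G a), h1, h2, List.append_nil]
    | cons _ _ => rfl

theorem eq [DecidableEq β] {f g : α → β} (hf : Poly f) (hg : Poly g) :
    Poly (fun a => decide (f a = g a)) :=
  (eqRaw hf hg).congr (fun _ => by simp [bitEncode_injective.eq_iff])

theorem mem [DecidableEq β] {f : α → β} {l : α → List β} (hf : Poly f) (hl : Poly l) :
    Poly (fun a => decide (f a ∈ l a)) :=
  (any (c := fun a x => decide (f a = x)) (eq (hf.comp id.fst) id.snd) hl).congr (fun a => by
    rw [Bool.eq_iff_iff]; simp)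

theorem reverse {l : α → List β} (hl : Poly l) : Poly (fun a => (l a).reverse) := by
  have key : ∀ (r c : List β), r.foldl (fun c x => x :: c) c = r.reverse ++ c := by
    intro r
    induction r with
    | nil => intro c; rfl
    | cons x r ih => intro c; simp [ih]
  refine (foldl (f := fun _ (c : List β) x => x :: c) (id.snd.snd.cons id.snd.fst) hl (const [])
    hl.bd (fun a n => ?_)).congr (fun a => by rw [key, List.append_nil])
  rw [key, List.append_nil, length_enc_reverse]
  exact enc_sublist_le (List.take_sublist _ _)

/-- Right fold with polynomially bounded accumulators. -/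
theorem foldr {f : α → β → γ → γ} (hf : Poly (fun p : α × β × γ => f p.1 p.2.1 p.2.2))
    {l : α → List β} (hl : Poly l) {i : α → γ} (hi : Poly i) {t : α → ℕ} (ht : Bd bitEncode t)
    (hb : ∀ a n, (bitEncode (((l a).drop n).foldr (f a) (i a))).length ≤ t a) :
    Poly (fun a => (l a).foldr (f a) (i a)) := by
  refine (foldl (f := fun a c x => f a x c)
    (hf.comp (id.fst.pair (id.snd.snd.pair id.snd.fst))) hl.reverse hi ht (fun a n => ?_)).congr
    (fun a => by rw [List.foldl_reverse])
  rw [List.take_reverse, List.foldl_reverse]
  exact hb a _

theorem dedup [DecidableEq β] {l : α → List β} (hl : Poly l) : Poly (fun a => (l a).dedup) := by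
  have key : ∀ r : List β,
      r.foldr (fun x c => if x ∈ c then c else x :: c) [] = r.dedup := by
    intro r
    induction r with
    | nil => rfl
    | cons x r ih =>
      rw [List.foldr_cons, ih]
      by_cases h : x ∈ r
      · rw [if_pos (List.mem_dedup.2 h), List.dedup_cons_of_mem h]
      · rw [if_neg (fun h' => h (List.mem_dedup.1 h')), List.dedup_cons_of_notMem h]
  refine (foldr (f := fun _ x (c : List β) => if x ∈ c then c else x :: c)
    (ite (mem id.snd.fst id.snd.snd) id.snd.snd (id.snd.fst.cons id.snd.snd)) hl (const [])
    hl.bd (fun a n => ?_)).congr (fun a => key _)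
  rw [key]
  exact enc_sublist_le ((List.dedup_sublist _).trans (List.drop_sublist _ _))

end Poly

end Pool.Agent.PolyT
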